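import Pool.Agent.Helper42.WB.Er
import Pool.Agent.Helper76.EW.PW

set_option autoImplicit false

/-!
# Weil's form on intervals: basic facts
-/

namespace Pool.Agent.Helper42.MI

open Complex Filter Topology Set MeasureTheory
open scoped ComplexConjugate ContDiff
open Pool.Agent.Helper61.W
open Pool.Agent.Helper76.EW (PW tf_of_supp)
open Pool.Agent.V11271.LI (Zr mm cfg_zeta zz reflE zz_im mm_refl mm_one_le)

lemma finite_zeta (R : ℝ) (hR : 0 ≤ R) : {ρ : Zr | |(zz ρ).im| ≤ R}.Finite := by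
  have h := (cfg_zeta.sum 2 (by norm_num)).tendsto_cofinite_zero
  have h2 : ∀ᶠ i in cofinite, mm i / (1 + |(zz i).im|) ^ (2 : ℝ) < 1 / (1 + R) ^ (2 : ℝ) :=
    h.eventually_lt_const (by positivity)
  rw [Filter.eventually_cofinite] at h2
  refine h2.subset fun i hi => ?_
  simp only [Set.mem_ofPred_eq, not_lt] at hi ⊢
  have h1 := mm_one_le i
  have h0 := abs_nonneg (zz i).im
  gcongr

noncomputable def TT (g : ℝ → ℂ) (s : ℂ) : ℂ := ∫ x : ℝ, g x * Complex.exp ((s - 1 / 2) * x)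

/-- the contribution of a zero -/
noncomputable def wt (g : ℝ → ℂ) (ρ : Zr) : ℂ :=
  (analyticOrderNatAt riemannZeta (ρ : ℂ) : ℂ) * (TT g ρ * conj (TT g (1 - conj (ρ : ℂ))))

/-- the test functions -/
def Tst (X : ℝ) (g : ℝ → ℂ) : Prop :=
  ContDiff ℝ ∞ g ∧ ∀ x : ℝ, x ∉ Set.Icc (-(Real.log X / 2)) (Real.log X / 2) → g x = 0

/-- Weil's form -/
noncomputable def Wf (g : ℝ → ℂ) : ℂ := ∑' ρ : Zr, wt g ρ

lemma Tst.tf {X : ℝ} {g : ℝ → ℂ} (h : Tst X g) : TF g := tf_of_supp h.1 h.2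

lemma TT_eq (g : ℝ → ℂ) (s : ℂ) : TT g s = LT g (s - 1 / 2) := rfl

lemma wt_eq {g : ℝ → ℂ} (h : TF g) (ρ : Zr) : wt g ρ = tm (corr g) ρ := by
  rw [tm_corr h]
  unfold wt V11271.LI.mm TT Helper61.W.Tr
  push_cast
  rfl

lemma wt_summable {g : ℝ → ℂ} (h : TF g) : Summable (wt g) := by
  have := summable_tm h.corr
  rwa [show (fun ρ : Zr => tm (corr g) ρ) = wt g from funext fun ρ => (wt_eq h ρ).symm] at this

lemma Tst.sum {X : ℝ} {κ : Type*} (s : Finset κ) {g : κ → ℝ → ℂ} (a : κ → ℂ) (h : ∀ k ∈ s, Tst X (g k)) :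
    Tst X (fun x => ∑ k ∈ s, a k * g k x) := by
  refine ⟨?_, ?_⟩
  · exact ContDiff.sum fun k hk => contDiff_const.mul (h k hk).1
  · intro x hx
    exact Finset.sum_eq_zero fun k hk => by rw [(h k hk).2 x hx, mul_zero]

/-- Weil's form is real -/
lemma Wf_im {g : ℝ → ℂ} (h : TF g) : (Wf g).im = 0 := by
  have e : Wf g = conj (Wf g) := by
    unfold Wf
    rw [Complex.conj_tsum, ← reflE.tsum_eq]
    refine tsum_congr fun ρ => ?_
    have h1 : ((reflE ρ : Zr) : ℂ) = 1 - conj (ρ : ℂ) := rfl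
    have h2 : (analyticOrderNatAt riemannZeta ((reflE ρ : Zr) : ℂ) : ℂ) =
        (analyticOrderNatAt riemannZeta (ρ : ℂ) : ℂ) := by
      have := mm_refl ρ
      unfold mm at this
      exact_mod_cast this
    unfold wt
    rw [h2, h1, map_mul, map_mul, Complex.conj_conj]
    have h3 : (1 : ℂ) - conj (1 - conj (ρ : ℂ)) = ρ := by
      rw [map_sub, map_one, Complex.conj_conj]
      ring
    rw [h3]
    have h4 : conj ((analyticOrderNatAt riemannZeta (ρ : ℂ) : ℂ)) = (analyticOrderNatAt riemannZeta (ρ : ℂ) : ℂ) :=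
      Complex.conj_natCast _
    rw [h4]
    ring
  have := congrArg Complex.im e
  rw [Complex.conj_im] at this
  linarith

lemma LT_sum {κ : Type*} (s : Finset κ) {g : κ → ℝ → ℂ} (a : κ → ℂ) (h : ∀ k ∈ s, TF (g k)) (z : ℂ) :
    LT (fun x => ∑ k ∈ s, a k * g k x) z = ∑ k ∈ s, a k * LT (g k) z := by
  unfold Helper61.W.LT
  simp_rw [Finset.sum_mul]
  rw [integral_finsetSum]
  · apply Finset.sum_congr rfl
    intro k _
    rw [← integral_const_mul]
    congr 1
    funext x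
    ring
  · intro k hk
    have := ((h k hk).integrable z).const_mul (a k)
    refine this.congr (Eventually.of_forall fun x => ?_)
    show a k * (g k x * _) = a k * g k x * _
    ring

lemma TT_sum {κ : Type*} (s : Finset κ) {g : κ → ℝ → ℂ} (a : κ → ℂ) (h : ∀ k ∈ s, TF (g k)) (z : ℂ) :
    TT (fun x => ∑ k ∈ s, a k * g k x) z = ∑ k ∈ s, a k * TT (g k) z := LT_sum s a h _

lemma PW.shift {r b R : ℝ} {F : ℂ → ℂ} (h : PW r F) (h1 : -R ≤ b - r) (h2 : b + r ≤ R) :
    PW R (fun z => cexp (b * z) * F z) := by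
  obtain ⟨f, a1, a2, a3⟩ := h
  have hs : ∀ x, x ∉ Icc (-R) R → (fun x : ℝ => f (x - b)) x = 0 := by
    intro x hx
    apply a2
    intro h3
    apply hx
    constructor <;> linarith [h3.1, h3.2]
  have hsm : ContDiff ℝ ∞ (fun x : ℝ => f (x - b)) := a1.smooth.comp (contDiff_id.sub contDiff_const)
  refine ⟨_, tf_of_supp hsm hs, hs, fun z => ?_⟩
  show _ = cexp (b * z) * F z
  rw [← a3]
  unfold Pool.Agent.Helper61.W.LT
  rw [← integral_add_right_eq_self _ b, ← integral_const_mul]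
  congr 1
  funext x
  show f (x + b - b) * _ = _
  rw [add_sub_cancel_right]
  have : cexp (z * ((x + b : ℝ) : ℂ)) = cexp (b * z) * cexp (z * x) := by
    rw [← Complex.exp_add]
    congr 1
    push_cast
    ring
  rw [this]
  ring

/-- modulation -/
lemma PW.modul {r : ℝ} {F : ℂ → ℂ} (y : ℝ) (h : PW r F) : PW r (fun z => F (z - y * I)) := by
  obtain ⟨f, a1, a2, a3⟩ := h
  have hs : ∀ x, x ∉ Icc (-r) r → (fun x : ℝ => f x * cexp (-(y * I) * x)) x = 0 := by
    intro x hx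
    show f x * _ = 0
    rw [a2 x hx, zero_mul]
  have hexp : ContDiff ℝ ∞ (fun x : ℝ => cexp (-(y * I) * x)) := by
    have : ContDiff ℝ ∞ (fun x : ℝ => (-(y * I : ℂ)) * (x : ℂ)) :=
      contDiff_const.mul Complex.ofRealCLM.contDiff
    exact this.cexp
  have hsm : ContDiff ℝ ∞ (fun x : ℝ => f x * cexp (-(y * I) * x)) := a1.smooth.mul hexp
  refine ⟨_, tf_of_supp hsm hs, hs, fun z => ?_⟩
  show _ = F (z - y * I)
  rw [← a3]
  unfold Pool.Agent.Helper61.W.LT
  congr 1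
  funext x
  show f x * cexp (-(y * I) * x) * cexp (z * x) = f x * cexp ((z - y * I) * x)
  rw [mul_assoc, ← Complex.exp_add]
  congr 2
  ring

/-- multiplication by the transform of a box -/
lemma PW.box {r b : ℝ} {F : ℂ → ℂ} (hb : 0 < b) (h : PW r F) : PW (r + b) (fun z => WB.Sb b z * F z) := by
  obtain ⟨f, a1, a2, a3⟩ := h
  refine ⟨WB.av b f, WB.TF.av b a1, ?_, fun z => ?_⟩
  · exact WB.av_supp a2
  · rw [WB.LT_av b a1, a3]

lemma PW.boxes {r b : ℝ} {F : ℂ → ℂ} (hb : 0 < b) (h : PW r F) (M : ℕ) :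
    PW (r + M * b) (fun z => WB.Sb b z ^ M * F z) := by
  induction M with
  | zero => simpa using h
  | succ M ih =>
    have := PW.box hb ih
    convert this using 1
    · push_cast; ring
    · funext z
      rw [pow_succ]
      ring

end Pool.Agent.Helper42.MI
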