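import Pool.Agent.Helper42.MI.Lg

set_option autoImplicit false

/-!
# The exponents of the negative eigenvalues of Weil's form
-/

namespace Pool.Agent.Helper42.MI

open Complex Filter Topology Set MeasureTheory
open scoped ComplexConjugate ContDiff
open Pool.Agent.Helper61.W
open Pool.Agent.Helper42.WB (den den_nonneg)
open Pool.Agent.V11271.LI (Zr mm cfg_zeta zz reflE zz_im zz_re zz_refl mm_refl mm_one_le)

variable {g : ℝ → ℂ} {w : ℝ → ℝ}

/-- negative definite of level `κ` on a space of dimension `k` -/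
def BelW (w : ℝ → ℝ) (X κ : ℝ) (k : ℕ) : Prop :=
  ∃ h : Fin k → ℝ → ℂ, (∀ j, Tst X (h j)) ∧
    ∀ a : Fin k → ℂ, a ≠ 0 → (Wf fun x => ∑ j, a j * h j x).re < -(X ^ κ * Ew w fun x => ∑ j, a j * h j x)

/-- zeros to the right of `σ` and of the critical line -/
def rgt (σ : ℝ) : Set Zr := {ρ : Zr | 1 / 2 < (ρ : ℂ).re ∧ σ < (ρ : ℂ).re}

/-- **Lower bound of the index.** -/
theorem lowerW (hw : Wgt w) {κ : ℝ} (hκ : 0 ≤ κ) (S : Finset Zr) (hS : ∀ ρ ∈ S, 1 / 2 + κ < (ρ : ℂ).re) :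
    ∃ X0 : ℝ, 1 < X0 ∧ ∀ X : ℝ, X0 ≤ X → BelW w X κ S.card := by
  classical
  obtain ⟨r, hr⟩ : ∃ r : Fin S.card → Zr, r = fun i => ((S.equivFin.symm i : S) : Zr) := ⟨_, rfl⟩
  have hrS : ∀ i, r i ∈ S := fun i => by
    rw [hr]
    exact (S.equivFin.symm i).2
  have hinj : Function.Injective r := by
    rw [hr]
    intro i j hij
    exact S.equivFin.symm.injective (Subtype.ext hij)
  have hκr : ∀ i, κ < (zz (r i)).re := fun i => by
    rw [zz_re]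
    have := hS _ (hrS i)
    linarith
  have hpos : ∀ i, 0 < (zz (r i)).re := fun i => by
    have := hκr i
    linarith
  obtain ⟨b, hb0, hb4, hb⟩ : ∃ b : ℝ, 0 < b ∧ b ≤ 1 / 4 ∧ ∀ i, κ < (1 - 2 * b) * (zz (r i)).re := by
    have h1 : ∀ i, ∀ᶠ b in 𝓝[>] (0 : ℝ), κ < (1 - 2 * b) * (zz (r i)).re := by
      intro i
      have hc : Tendsto (fun b : ℝ => (1 - 2 * b) * (zz (r i)).re) (𝓝[>] 0) (𝓝 ((1 - 2 * 0) * (zz (r i)).re)) := by
        apply Tendsto.mono_left _ nhdsWithin_le_nhds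
        exact Continuous.tendsto (by fun_prop) 0
      apply hc.eventually_const_lt
      simpa using hκr i
    have h2 := (eventually_all.mpr h1).and (Ioc_mem_nhdsGT (show (0 : ℝ) < 1 / 4 by norm_num))
    obtain ⟨b, h3, h4⟩ := h2.exists
    exact ⟨b, h4.1, h4.2, h3⟩
  obtain ⟨K1, K2, c, hK1, hK2, hc, hmain⟩ := lower1 hw r hinj hpos hb0 hb4
  -- eventually the exponentials win
  have hev : ∀ i, ∀ᶠ X : ℝ in atTop, (3 * c i + K1 + K2 + 1) * Real.exp 1 / c i + 3 * Real.exp 1 <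
      X ^ ((1 - 2 * b) * (zz (r i)).re - κ) := by
    intro i
    exact (tendsto_rpow_atTop (by linarith [hb i])).eventually_gt_atTop _
  obtain ⟨X1, hX1⟩ := eventually_atTop.mp (eventually_all.mpr hev)
  refine ⟨max X1 (Real.exp 8), lt_of_lt_of_le (by
    have := Real.add_one_le_exp 8
    linarith) (le_max_right _ _), fun X hX => ?_⟩
  have hXe : Real.exp 8 ≤ X := (le_max_right _ _).trans hX
  have hXX := hX1 X ((le_max_left _ _).trans hX)
  have hX0 : 0 < X := lt_of_lt_of_le (Real.exp_pos 8) hXe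
  have hX1' : 1 ≤ X := by
    have := Real.add_one_le_exp 8
    linarith
  have hL : 8 ≤ Real.log X := (Real.le_log_iff_exp_le hX0).mpr hXe
  have hXκ : 1 ≤ X ^ κ := Real.one_le_rpow hX1' hκ
  have hexp : ∀ i, Real.exp (-1) * (X ^ κ * X ^ ((1 - 2 * b) * (zz (r i)).re - κ)) ≤
      Real.exp (((1 - 2 * b) * Real.log X - 1) * (zz (r i)).re) := by
    intro i
    rw [← Real.rpow_add hX0, Real.rpow_def_of_pos hX0, ← Real.exp_add, Real.exp_le_exp]
    have h1 : (zz (r i)).re ≤ 1 / 2 := (abs_le.mp (zz_re_abs (r i))).2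
    have e1 : Real.log X * (κ + ((1 - 2 * b) * (zz (r i)).re - κ)) = (1 - 2 * b) * Real.log X * (zz (r i)).re := by ring
    rw [e1]
    nlinarith
  have he1 : Real.exp (-1) * Real.exp 1 = 1 := by
    rw [← Real.exp_add, neg_add_cancel, Real.exp_zero]
  have hbig : ∀ i, (3 * c i + K1 + K2 + 1) / c i * X ^ κ + 3 ≤ Real.exp (((1 - 2 * b) * Real.log X - 1) * (zz (r i)).re) := by
    intro i
    refine le_trans ?_ (hexp i)
    have hci := hc i
    have h1 := (hXX i).le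
    have h2 : Real.exp (-1) * (X ^ κ * ((3 * c i + K1 + K2 + 1) * Real.exp 1 / c i + 3 * Real.exp 1)) ≤
        Real.exp (-1) * (X ^ κ * X ^ ((1 - 2 * b) * (zz (r i)).re - κ)) := by gcongr
    refine le_trans ?_ h2
    have e2 : Real.exp (-1) * (X ^ κ * ((3 * c i + K1 + K2 + 1) * Real.exp 1 / c i + 3 * Real.exp 1)) =
        (Real.exp (-1) * Real.exp 1) * (X ^ κ * ((3 * c i + K1 + K2 + 1) / c i + 3)) := by ring
    rw [e2, he1, one_mul]
    nlinarith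
  have h3 : ∀ i, 3 ≤ Real.exp (((1 - 2 * b) * Real.log X - 1) * (zz (r i)).re) := by
    intro i
    refine le_trans ?_ (hbig i)
    have := hc i
    have : 0 ≤ (3 * c i + K1 + K2 + 1) / c i * X ^ κ := by positivity
    linarith
  obtain ⟨g, hg, hmain2⟩ := hmain (Real.log X) hL h3
  refine ⟨g, hg, fun x hx => ?_⟩
  obtain ⟨m1, m2⟩ := hmain2 x
  have hneg : ∀ i, c i * (3 - Real.exp (((1 - 2 * b) * Real.log X - 1) * (zz (r i)).re)) + K1 + X ^ κ * K2 ≤ -1 := by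
    intro i
    have hci := hc i
    have h4 := hbig i
    have h5 : c i * ((3 * c i + K1 + K2 + 1) / c i * X ^ κ + 3) ≤
        c i * Real.exp (((1 - 2 * b) * Real.log X - 1) * (zz (r i)).re) := by gcongr
    have e3 : c i * ((3 * c i + K1 + K2 + 1) / c i * X ^ κ + 3) = (3 * c i + K1 + K2 + 1) * X ^ κ + 3 * c i := by
      field_simp
    rw [e3] at h5
    have h6 : K1 ≤ K1 * X ^ κ := le_mul_of_one_le_right hK1 hXκ
    have h7 : 0 ≤ 3 * c i * X ^ κ := by positivity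
    nlinarith
  have hsum : ∑ i, ‖x i‖ ^ 2 * (c i * (3 - Real.exp (((1 - 2 * b) * Real.log X - 1) * (zz (r i)).re)) + K1) +
      X ^ κ * (K2 * ∑ i, ‖x i‖ ^ 2) ≤ -∑ i, ‖x i‖ ^ 2 := by
    rw [Finset.mul_sum, Finset.mul_sum, ← Finset.sum_add_distrib, ← Finset.sum_neg_distrib]
    refine Finset.sum_le_sum fun i _ => ?_
    have h8 := hneg i
    have h9 : 0 ≤ ‖x i‖ ^ 2 := by positivity
    nlinarith
  have hxpos : 0 < ∑ i, ‖x i‖ ^ 2 := by
    obtain ⟨j, hj⟩ := Function.ne_iff.mp hx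
    refine Finset.sum_pos' (fun i _ => by positivity) ⟨j, Finset.mem_univ j, ?_⟩
    have : 0 < ‖x j‖ := norm_pos_iff.mpr hj
    positivity
  have h10 : X ^ κ * Ew w (fun t => ∑ i, x i * g i t) ≤ X ^ κ * (K2 * ∑ i, ‖x i‖ ^ 2) := by gcongr
  linarith

lemma Ew_lg_le (hw : Wgt w) (h : TF g) : Ew lgw g ≤ Ew w g := by
  unfold Ew
  exact integral_mono (lg_int h) (Ew_int hw h) fun t => mul_le_mul_of_nonneg_right (hw.ge t) (den_nonneg g t)

/-- if the transform vanishes at all zeros off the line then the form is nonnegative -/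
lemma form_nonneg (h : TF g) (hz : ∀ ρ : Zr, 1 / 2 < (ρ : ℂ).re → TT g (ρ : ℂ) = 0) : 0 ≤ (Wf g).re := by
  have r1 : (Wf g).re = ∑' ρ : Zr, (wt g ρ).re := Complex.reCLM.map_tsum (wt_summable h)
  rw [r1]
  refine tsum_nonneg fun ρ => ?_
  rcases lt_trichotomy (ρ : ℂ).re (1 / 2) with h1 | h1 | h1
  · have h2 := hz (reflE ρ) (by
      show 1 / 2 < (1 - conj (ρ : ℂ)).re
      simp only [Complex.sub_re, Complex.one_re, Complex.conj_re]
      linarith)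
    rw [TT_eq] at h2
    have h3 : LT g (-conj (zz ρ)) = 0 := by
      rw [← zz_refl]
      exact h2
    rw [wt_LT, h3]
    simp
  · exact wt_line h ρ h1
  · have h2 := hz ρ h1
    rw [TT_eq] at h2
    have h3 : LT g (zz ρ) = 0 := h2
    rw [wt_LT, h3]
    simp

lemma log_sq_small (A ε : ℝ) (hε : 0 < ε) : ∃ X0 : ℝ, 8 ≤ X0 ∧ ∀ X : ℝ, X0 ≤ X → A * Real.log X ^ 2 * X ^ (-ε) ≤ 1 := by
  have h1 : Tendsto (fun X : ℝ => A * (Real.log X / X ^ (ε / 2)) ^ 2) atTop (𝓝 (A * 0 ^ 2)) :=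
    (((isLittleO_log_rpow_atTop (half_pos hε)).tendsto_div_nhds_zero).pow 2).const_mul A
  rw [zero_pow (by norm_num), mul_zero] at h1
  obtain ⟨X0, hX0⟩ := eventually_atTop.mp (h1.eventually_le_const (show (0 : ℝ) < 1 by norm_num))
  refine ⟨max X0 8, le_max_right _ _, fun X hX => ?_⟩
  have h2 := hX0 X ((le_max_left _ _).trans hX)
  have hX8 : 8 ≤ X := (le_max_right _ _).trans hX
  have e : A * (Real.log X / X ^ (ε / 2)) ^ 2 = A * Real.log X ^ 2 * X ^ (-ε) := by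
    rw [div_pow, ← Real.rpow_natCast (X ^ (ε / 2)), ← Real.rpow_mul (by linarith), Real.rpow_neg (by linarith)]
    push_cast
    rw [div_mul_cancel₀ ε (by norm_num : (2 : ℝ) ≠ 0)]
    ring
  rwa [e] at h2

/-- **Lower bound of the form.** -/
theorem form_geW (ε : ℝ) (hε : 0 < ε) : ∃ X0 : ℝ, 8 ≤ X0 ∧ ∀ X : ℝ, X0 ≤ X → ∀ κ : ℝ, 0 ≤ κ → ∀ g : ℝ → ℂ, Tst X g →
    (∀ ρ ∈ rgt (1 / 2 + κ - ε), TT g (ρ : ℂ) = 0) → -(X ^ κ * Ew lgw g) ≤ (Wf g).re := by
  obtain ⟨A, hA, hform⟩ := form_ge_lg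
  obtain ⟨X0, hX0, hsmall⟩ := log_sq_small A ε hε
  refine ⟨X0, hX0, fun X hX κ hκ g hg hz => ?_⟩
  have hXp : 0 < X := by linarith
  have hE := Ew_lg_nonneg g
  rcases lt_or_ge κ ε with h1 | h1
  · have h2 := form_nonneg hg.tf fun ρ hρ => hz ρ ⟨hρ, by linarith⟩
    have : 0 ≤ X ^ κ * Ew lgw g := by positivity
    linarith
  · have h2 := hform X (hX0.trans hX) (κ - ε) (by linarith) g hg fun ρ h3 h4 => hz ρ ⟨h3, by linarith⟩
    refine le_trans ?_ h2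
    have h3 := hsmall X hX
    have e1 : X ^ (κ - ε) = X ^ κ * X ^ (-ε) := by
      rw [← Real.rpow_add hXp]
      ring_nf
    have h4 : A * Real.log X ^ 2 * X ^ (κ - ε) * Ew lgw g ≤ X ^ κ * Ew lgw g := by
      apply mul_le_mul_of_nonneg_right _ hE
      rw [e1]
      calc A * Real.log X ^ 2 * (X ^ κ * X ^ (-ε)) = X ^ κ * (A * Real.log X ^ 2 * X ^ (-ε)) := by ring
        _ ≤ X ^ κ * 1 := by gcongr
        _ = X ^ κ := mul_one _
    linarith

/-- the dimension count -/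
lemma dim_count {X κ : ℝ} {k : ℕ} {Z : Set Zr} (hfin : Z.Finite)
    (A : ∀ g : ℝ → ℂ, Tst X g → (∀ ρ ∈ Z, TT g (ρ : ℂ) = 0) → -(X ^ κ * Ew w g) ≤ (Wf g).re)
    (hk : BelW w X κ k) : k ≤ Z.ncard := by
  obtain ⟨f, hf, hneg⟩ := hk
  by_contra hlt
  push Not at hlt
  have := hfin.fintype
  let E : (Fin k → ℂ) →ₗ[ℂ] (Z → ℂ) :=
    { toFun := fun a ρ => ∑ j, a j * TT (f j) ((ρ : Zr) : ℂ)
      map_add' := fun a b => by
        funext ρ
        simp only [Pi.add_apply, add_mul, Finset.sum_add_distrib]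
      map_smul' := fun c a => by
        funext ρ
        simp only [Pi.smul_apply, smul_eq_mul, RingHom.id_apply, Finset.mul_sum, mul_assoc] }
  have hker : LinearMap.ker E ≠ ⊥ := by
    apply E.ker_ne_bot_of_finrank_lt
    rw [Module.finrank_fintype_fun_eq_card, Module.finrank_fintype_fun_eq_card, Fintype.card_fin,
      ← Nat.card_eq_fintype_card]
    exact hlt
  obtain ⟨a, ha, ha0⟩ := (Submodule.ne_bot_iff _).mp hker
  have h1 := hneg a ha0
  have hT : Tst X (fun x => ∑ j, a j * f j x) := Tst.sum Finset.univ a fun j _ => hf j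
  have h2 := A (fun x => ∑ j, a j * f j x) hT (by
    intro ρ hρ
    rw [TT_sum Finset.univ a fun j _ => (hf j).tf]
    have h3 : E a = 0 := ha
    exact congrFun h3 ⟨ρ, hρ⟩)
  linarith

/-- **Upper bound of the index.** -/
theorem upperW (ε : ℝ) (hε : 0 < ε) : ∃ X0 : ℝ, 8 ≤ X0 ∧ ∀ w : ℝ → ℝ, Wgt w → ∀ X : ℝ, X0 ≤ X → ∀ κ : ℝ, 0 ≤ κ →
    (∀ g : ℝ → ℂ, Tst X g → (∀ ρ ∈ rgt (1 / 2 + κ - ε), TT g (ρ : ℂ) = 0) → -(X ^ κ * Ew w g) ≤ (Wf g).re) ∧
    (∀ k : ℕ, BelW w X κ k → (k : ℕ∞) ≤ (rgt (1 / 2 + κ - ε)).encard) ∧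
    ((∀ t, 1 + t ^ 2 ≤ w t) → ∀ k : ℕ, BelW w X κ k → k ≤ (seen X (1 / 2 + κ - ε)).ncard) := by
  obtain ⟨X0, hX0, hform⟩ := form_geW ε hε
  obtain ⟨X1, hX1, hup⟩ := upper ε hε
  refine ⟨max X0 X1, hX0.trans (le_max_left _ _), fun w hw X hX κ hκ => ?_⟩
  have hXp : 0 < X := by
    have := (le_max_left X0 X1).trans hX
    linarith
  have A : ∀ g : ℝ → ℂ, Tst X g → (∀ ρ ∈ rgt (1 / 2 + κ - ε), TT g (ρ : ℂ) = 0) → -(X ^ κ * Ew w g) ≤ (Wf g).re := by
    intro g hg hz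
    have h1 := hform X ((le_max_left _ _).trans hX) κ hκ g hg hz
    have h2 := Ew_lg_le hw hg.tf
    have h3 : X ^ κ * Ew lgw g ≤ X ^ κ * Ew w g := by gcongr
    linarith
  refine ⟨A, fun k hk => ?_, fun hw1 k hk => ?_⟩
  · by_cases hfin : (rgt (1 / 2 + κ - ε)).Finite
    · have h1 := dim_count hfin A hk
      rw [hfin.encard_eq_coe]
      exact_mod_cast h1
    · rw [Set.Infinite.encard_eq hfin]
      exact le_top
  · refine (hup X ((le_max_right _ _).trans hX) κ hκ).2 k ?_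
    obtain ⟨f, hf, hneg⟩ := hk
    refine ⟨f, hf, fun a ha => (hneg a ha).trans_le ?_⟩
    have hT : Tst X (fun x => ∑ j, a j * f j x) := Tst.sum Finset.univ a fun j _ => hf j
    have hTF := hT.tf
    have h4 : 2 * Real.pi * E1 (fun x => ∑ j, a j * f j x) ≤ Ew w (fun x => ∑ j, a j * f j x) := by
      rw [E1_plancherel hTF]
      unfold Ew
      exact integral_mono (E1_int hTF) (Ew_int hw hTF) fun t => mul_le_mul_of_nonneg_right (hw1 t) (den_nonneg _ t)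
    have h5 := E1_nonneg (fun x => ∑ j, a j * f j x)
    have h6 : E1 (fun x => ∑ j, a j * f j x) ≤ Ew w (fun x => ∑ j, a j * f j x) := by
      refine le_trans ?_ h4
      have : 1 ≤ 2 * Real.pi := by linarith [Real.pi_gt_three]
      exact le_mul_of_one_le_left h5 this
    have h7 : X ^ κ * E1 (fun x => ∑ j, a j * f j x) ≤ X ^ κ * Ew w (fun x => ∑ j, a j * f j x) := by gcongr
    linarith

/-- the exponent of the `k`-th eigenvalue -/
noncomputable def level (w : ℝ → ℝ) (X : ℝ) (k : ℕ) : ℝ := sSup {κ : ℝ | 0 ≤ κ ∧ BelW w X κ k}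

/-- the `k`-th largest real part, minus `1 / 2` -/
noncomputable def kth (k : ℕ) : ℝ := sSup {κ : ℝ | 0 ≤ κ ∧ (k : ℕ∞) ≤ {ρ : Zr | 1 / 2 + κ < (ρ : ℂ).re}.encard}

lemma kth_bdd {k : ℕ} (hk : 1 ≤ k) {κ : ℝ} (h : (k : ℕ∞) ≤ {ρ : Zr | 1 / 2 + κ < (ρ : ℂ).re}.encard) : κ ≤ 1 / 2 := by
  by_contra hlt
  push Not at hlt
  have h1 : {ρ : Zr | 1 / 2 + κ < (ρ : ℂ).re} = ∅ := by
    rw [Set.eq_empty_iff_forall_notMem]
    intro ρ hρ
    have := ρ.2.2.2
    have : 1 / 2 + κ < (ρ : ℂ).re := hρ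
    linarith
  rw [h1, Set.encard_empty] at h
  have h2 : (k : ℕ∞) = 0 := nonpos_iff_eq_zero.mp h
  have h3 : k = 0 := by exact_mod_cast h2
  omega

lemma kth_nonneg (k : ℕ) : 0 ≤ kth k := Real.sSup_nonneg fun κ hκ => hκ.1

lemma le_kth {k : ℕ} (hk : 1 ≤ k) {κ : ℝ} (hκ : 0 ≤ κ) (h : (k : ℕ∞) ≤ {ρ : Zr | 1 / 2 + κ < (ρ : ℂ).re}.encard) :
    κ ≤ kth k :=
  le_csSup ⟨1 / 2, fun _ h => kth_bdd hk h.2⟩ ⟨hκ, h⟩

lemma level_nonneg (w : ℝ → ℝ) (X : ℝ) (k : ℕ) : 0 ≤ level w X k := Real.sSup_nonneg fun κ hκ => hκ.1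

/-- **The limit law.** -/
theorem level_tendsto (hw : Wgt w) {k : ℕ} (hk : 1 ≤ k) : Tendsto (fun X => level w X k) atTop (𝓝 (kth k)) := by
  have hup : ∀ ε : ℝ, 0 < ε → ∃ X0 : ℝ, ∀ X : ℝ, X0 ≤ X → ∀ κ : ℝ, 0 ≤ κ → BelW w X κ k → κ ≤ kth k + ε := by
    intro ε hε
    obtain ⟨X0, hX0, h⟩ := upperW ε hε
    refine ⟨X0, fun X hX κ hκ hb => ?_⟩
    have h1 := (h w hw X hX κ hκ).2.1 k hb
    have h0 := kth_nonneg k
    rcases lt_or_ge κ ε with h2 | h2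
    · linarith
    · have h3 : (k : ℕ∞) ≤ {ρ : Zr | 1 / 2 + (κ - ε) < (ρ : ℂ).re}.encard := by
        refine h1.trans (Set.encard_le_encard fun ρ hρ => ?_)
        have := hρ.2
        show 1 / 2 + (κ - ε) < (ρ : ℂ).re
        linarith
      have := le_kth hk (by linarith) h3
      linarith
  rw [tendsto_order]
  constructor
  · intro c hc
    obtain ⟨X1, hX1⟩ := hup 1 one_pos
    rcases lt_or_ge c 0 with hc0 | hc0
    · exact Eventually.of_forall fun X => lt_of_lt_of_le hc0 (level_nonneg _ _ _)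
    · have hne : {κ : ℝ | 0 ≤ κ ∧ (k : ℕ∞) ≤ {ρ : Zr | 1 / 2 + κ < (ρ : ℂ).re}.encard}.Nonempty := by
        by_contra he
        rw [Set.not_nonempty_iff_eq_empty] at he
        unfold kth at hc
        rw [he, Real.sSup_empty] at hc
        linarith
      obtain ⟨κ, ⟨hκ0, hκ⟩, hcκ⟩ := exists_lt_of_lt_csSup hne hc
      obtain ⟨T, hT1, hT2⟩ := Set.exists_subset_encard_eq hκ
      have hTf : T.Finite := Set.finite_of_encard_eq_coe hT2
      obtain ⟨X0, hX0, hb⟩ := lowerW hw hκ0 hTf.toFinset fun ρ hρ => hT1 (hTf.mem_toFinset.mp hρ)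
      have hcard : hTf.toFinset.card = k := by
        have := hTf.encard_eq_coe_toFinset_card
        rw [hT2] at this
        exact_mod_cast this.symm
      rw [hcard] at hb
      filter_upwards [eventually_ge_atTop X0, eventually_ge_atTop X1] with X h1 h2
      refine hcκ.trans_le (le_csSup ⟨kth k + 1, fun κ' h => hX1 X h2 κ' h.1 h.2⟩ ⟨hκ0, hb X h1⟩)
  · intro c hc
    obtain ⟨X1, hX1⟩ := hup ((c - kth k) / 2) (by linarith)
    filter_upwards [eventually_ge_atTop X1] with X h2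
    have h0 := kth_nonneg k
    refine lt_of_le_of_lt (Real.sSup_le (fun κ hκ => hX1 X h2 κ hκ.1 hκ.2) (by linarith)) (by linarith)

/-- lower bound for the form -/
def Lwr (w : ℝ → ℝ) (X κ : ℝ) : Prop := ∀ g : ℝ → ℂ, Tst X g → -(X ^ κ * Ew w g) ≤ (Wf g).re

lemma Lwr_of (hw : Wgt w) {σ κ : ℝ} (hκ : 0 ≤ κ) (hσ : σ < 1 / 2 + κ) (hz : ∀ ρ : Zr, (ρ : ℂ).re ≤ σ) :
    ∃ X0 : ℝ, ∀ X : ℝ, X0 ≤ X → Lwr w X κ := by
  obtain ⟨X0, hX0, h⟩ := upperW (1 / 2 + κ - σ) (by linarith)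
  refine ⟨X0, fun X hX g hg => (h w hw X hX κ hκ).1 g hg fun ρ hρ => ?_⟩
  have h1 := hρ.2
  have h2 := hz ρ
  linarith

lemma of_Lwr (hw : Wgt w) {κ : ℝ} (hκ : 0 ≤ κ) (h : ∀ X0 : ℝ, ∃ X, X0 ≤ X ∧ Lwr w X κ) (ρ : Zr) :
    (ρ : ℂ).re ≤ 1 / 2 + κ := by
  by_contra hlt
  push Not at hlt
  obtain ⟨X0, hX0, hb⟩ := lowerW hw hκ {ρ} (by simpa using hlt)
  obtain ⟨X, hX, hl⟩ := h X0
  have h1 := hb X hX
  rw [Finset.card_singleton] at h1
  obtain ⟨f, hf, hneg⟩ := h1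
  have h2 := hneg (fun _ => 1) (by
    intro h
    have := congrFun h 0
    simp at this)
  have hT : Tst X (fun x => ∑ j : Fin 1, (1 : ℂ) * f j x) := Tst.sum Finset.univ (fun _ => (1 : ℂ)) fun j _ => hf j
  have h3 := hl _ hT
  linarith

end Pool.Agent.Helper42.MI
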