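import Pool.Agent.Helper42.MI.Lo2

set_option autoImplicit false

/-!
# Weil's form and the logarithmic norm
-/

namespace Pool.Agent.Helper42.MI

open Complex Filter Topology Set MeasureTheory
open scoped ComplexConjugate ContDiff Convolution
open Pool.Agent.Helper61.W
open Pool.Agent.Helper42.WB (en en_eq_sq en_eq en_nonneg den den_nonneg den_cont integrable_den0 Sb Sb_eq Sb_zero
  Sb_line Sb_norm av box LT_av)
open Pool.Agent.Helper76.EW (PW tf_of_supp EE PW_EE EE_near_one etc etc_tf etc_supp eta_int eta_supp eta_integrable)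
open Pool.Agent.V11271.LI (Zr mm cfg_zeta zz reflE zz_im zz_re zz_refl mm_refl mm_one_le Loc loc_zeta summable_int)

variable {g : ℝ → ℂ}

/-- the kernel -/
noncomputable def kap (s : ℝ) : ℝ := 1 / (1 + s ^ 2) ^ 2

lemma kap_nonneg (s : ℝ) : 0 ≤ kap s := by unfold kap; positivity

lemma kap_cont : Continuous kap := by
  unfold kap
  refine Continuous.div continuous_const (by fun_prop) fun s => by positivity

lemma kap_le (s : ℝ) : kap s ≤ (1 + s ^ 2)⁻¹ := by
  unfold kap
  rw [← one_div]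
  apply one_div_le_one_div_of_le (by positivity)
  nlinarith [sq_nonneg s, sq_nonneg (s ^ 2)]

lemma kap_le_one (s : ℝ) : kap s ≤ 1 := (kap_le s).trans (inv_le_one_of_one_le₀ (by nlinarith [sq_nonneg s]))

lemma kap_int (y : ℝ) : Integrable fun t : ℝ => kap (y - t) := by
  have h1 : Integrable fun s : ℝ => kap s := by
    refine integrable_inv_one_add_sq.mono' kap_cont.aestronglyMeasurable (Eventually.of_forall fun s => ?_)
    rw [Real.norm_of_nonneg (kap_nonneg s)]
    exact kap_le s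
  exact h1.comp_sub_left y

lemma kap_int_le (y : ℝ) : ∫ t : ℝ, kap (y - t) ≤ Real.pi := by
  rw [integral_sub_left_eq_self kap volume y, ← integral_univ_inv_one_add_sq]
  refine integral_mono ?_ integrable_inv_one_add_sq kap_le
  have := kap_int 0
  have h2 : (fun t : ℝ => kap (0 - t)) = kap := by
    funext t
    unfold kap
    rw [zero_sub, neg_sq]
  rwa [h2] at this

/-! ### Parseval -/

lemma parseval (h : TF g) {ψ : ℝ → ℂ} (hψ : TF ψ) :
    2 * Real.pi * ∫ u : ℝ, g u * ψ u = ∫ t : ℝ, LT g (t * I) * LT ψ (-(t * I)) := by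
  have i1 : Integrable (fun t : ℝ => LT g (t * I)) := by
    have := LT_line_integrable h 0 (g := fun _ => 1) continuous_const (K := 1) (fun y => by
      rw [norm_one]
      nlinarith [sq_nonneg y])
    simpa using this
  have i2 : Integrable ψ := hψ.cont.integrable_of_hasCompactSupport hψ.supp
  have i3 : Integrable (Function.uncurry fun (u t : ℝ) => LT g (t * I) * cexp (-(t * I) * u) * ψ u)
      (volume.prod volume) := by
    have h1 : Integrable (fun p : ℝ × ℝ => ψ p.1 * LT g (p.2 * I)) (volume.prod volume) := i2.mul_prod i1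
    refine h1.mono ?_ (Eventually.of_forall fun p => ?_)
    · apply Continuous.aestronglyMeasurable
      have := LT_continuous h
      have := hψ.cont
      unfold Function.uncurry
      fun_prop
    · unfold Function.uncurry
      rw [norm_mul, norm_mul, norm_mul, Complex.norm_exp]
      have : (-((p.2 : ℂ) * I) * (p.1 : ℂ)).re = 0 := by simp
      simp only [this, Real.exp_zero, mul_one]
      rw [mul_comm]
  calc 2 * Real.pi * ∫ u : ℝ, g u * ψ u = ∫ u : ℝ, (2 * Real.pi * g u) * ψ u := by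
        rw [← integral_const_mul]
        congr 1
        funext u
        ring
    _ = ∫ u : ℝ, ∫ t : ℝ, LT g (t * I) * cexp (-(t * I) * u) * ψ u := by
        congr 1
        funext u
        have := LT_inversion h 0 u
        simp only [Complex.ofReal_zero, zero_add] at this
        rw [← this, ← integral_mul_const]
    _ = ∫ t : ℝ, ∫ u : ℝ, LT g (t * I) * cexp (-(t * I) * u) * ψ u := integral_integral_swap i3
    _ = _ := by
        congr 1
        funext t
        unfold Helper61.W.LT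
        rw [← integral_const_mul]
        congr 1
        funext u
        ring

/-! ### The pointwise bound -/

lemma av_etc {c x : ℝ} (hc : 0 < c) (hx : x ∈ Icc (-c) c) :
    (2 * (c + 1 / 4) : ℂ) * av (c + 1 / 4) etc x = 1 := by
  have hb : 0 < c + 1 / 4 := by linarith
  unfold WB.av
  rw [convolution_def]
  have e1 : ∀ t : ℝ, (ContinuousLinearMap.mul ℝ ℂ) (box (c + 1 / 4) t) (etc (x - t)) =
      ((2 * (c + 1 / 4) : ℝ) : ℂ)⁻¹ * ((Helper76.EW.eta (x - t) : ℝ) : ℂ) := by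
    intro t
    rw [ContinuousLinearMap.mul_apply']
    unfold WB.box
    by_cases ht : t ∈ Icc (-(c + 1 / 4)) (c + 1 / 4)
    · rw [indicator_of_mem ht]
      rfl
    · rw [indicator_of_notMem ht, zero_mul]
      have : Helper76.EW.eta (x - t) = 0 := by
        apply eta_supp
        by_contra hlt
        push Not at hlt
        rw [abs_lt] at hlt
        apply ht
        have := hx.1
        have := hx.2
        constructor <;> linarith
      rw [this, Complex.ofReal_zero, mul_zero]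
  have e2 : ∫ a : ℝ, ((Helper76.EW.eta (x - a) : ℝ) : ℂ) = ((∫ a : ℝ, Helper76.EW.eta (x - a) : ℝ) : ℂ) := integral_ofReal
  rw [integral_congr_ae (Eventually.of_forall e1), integral_const_mul, e2,
    integral_sub_left_eq_self Helper76.EW.eta volume x, eta_int]
  have : (2 * (c + 1 / 4) : ℂ) ≠ 0 := by
    have h1 : ((2 * (c + 1 / 4) : ℝ) : ℂ) ≠ 0 := by exact_mod_cast (by positivity : (2 * (c + 1 / 4) : ℝ) ≠ 0)
    push_cast at h1
    exact h1
  rw [Complex.ofReal_one, mul_one]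
  push_cast
  exact mul_inv_cancel₀ this

lemma Sb_exp {b : ℝ} (hb : 0 < b) (v : ℂ) : ‖Sb b v‖ ≤ Real.exp (b * |v.re|) := by
  unfold WB.Sb Helper61.W.LT
  have hi : Integrable (box b) := WB.box_int b
  have h1 : ∫ u, ‖box b u‖ = 1 := by
    have e : ∀ u, ‖box b u‖ = (Icc (-b) b).indicator (fun _ => (2 * b)⁻¹) u := by
      intro u
      unfold WB.box
      by_cases hu : u ∈ Icc (-b) b
      · rw [indicator_of_mem hu, indicator_of_mem hu, norm_inv, Complex.norm_real,
          Real.norm_of_nonneg (by positivity)]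
      · rw [indicator_of_notMem hu, indicator_of_notMem hu, norm_zero]
    rw [integral_congr_ae (Eventually.of_forall e), integral_indicator measurableSet_Icc, setIntegral_const,
      Real.volume_real_Icc_of_le (by linarith), smul_eq_mul]
    field_simp
    ring
  calc ‖∫ u : ℝ, box b u * cexp (v * u)‖ ≤ ∫ u : ℝ, ‖box b u‖ * Real.exp (b * |v.re|) := by
        refine norm_integral_le_of_norm_le (hi.norm.mul_const _) (Eventually.of_forall fun u => ?_)
        by_cases hu : u ∈ Icc (-b) b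
        · rw [norm_mul, Complex.norm_exp]
          gcongr
          have h3 : (v * u).re = v.re * u := by simp
          rw [h3]
          have h4 : |u| ≤ b := abs_le.mpr hu
          calc v.re * u ≤ |v.re * u| := le_abs_self _
            _ = |u| * |v.re| := by rw [abs_mul, mul_comm]
            _ ≤ b * |v.re| := by gcongr
        · unfold WB.box
          rw [indicator_of_notMem hu]
          simp
    _ = Real.exp (b * |v.re|) := by
        rw [integral_mul_const, h1, one_mul]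

/-- smoothed energy at height `y` -/
noncomputable def Jk (g : ℝ → ℂ) (y : ℝ) : ℝ := ∫ t : ℝ, den g t * kap (y - t)

lemma Jk_int (h : TF g) (y : ℝ) : Integrable fun t : ℝ => den g t * kap (y - t) := by
  refine (integrable_den0 h).mono' ?_ (Eventually.of_forall fun t => ?_)
  · apply Continuous.aestronglyMeasurable
    have := den_cont h
    have := kap_cont
    fun_prop
  · rw [Real.norm_of_nonneg (mul_nonneg (den_nonneg g t) (kap_nonneg _))]
    exact mul_le_of_le_one_right (den_nonneg g t) (kap_le_one _)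

lemma Jk_nonneg (g : ℝ → ℂ) (y : ℝ) : 0 ≤ Jk g y :=
  integral_nonneg fun t => mul_nonneg (den_nonneg g t) (kap_nonneg _)

lemma cs_kap (h : TF g) (y : ℝ) : (∫ t : ℝ, ‖LT g (t * I)‖ * kap (y - t)) ^ 2 ≤ Real.pi * Jk g y := by
  obtain ⟨A0, hA0⟩ : ∃ A0, A0 = ∫ t : ℝ, kap (y - t) := ⟨_, rfl⟩
  obtain ⟨A1, hA1⟩ : ∃ A1, A1 = ∫ t : ℝ, ‖LT g (t * I)‖ * kap (y - t) := ⟨_, rfl⟩
  have i0 := kap_int y
  have i2 := Jk_int h y
  have hc := LT_continuous h
  have hk := kap_cont
  have i1 : Integrable fun t : ℝ => ‖LT g (t * I)‖ * kap (y - t) := by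
    refine (i0.add i2).mono' ?_ (Eventually.of_forall fun t => ?_)
    · apply Continuous.aestronglyMeasurable
      fun_prop
    · rw [Real.norm_of_nonneg (mul_nonneg (norm_nonneg _) (kap_nonneg _))]
      show ‖LT g (t * I)‖ * kap (y - t) ≤ kap (y - t) + den g t * kap (y - t)
      unfold WB.den
      have := kap_nonneg (y - t)
      nlinarith [sq_nonneg (‖LT g (t * I)‖ - 1), norm_nonneg (LT g (t * I)),
        mul_nonneg this (sq_nonneg (‖LT g (t * I)‖ - 1))]
  have key : ∀ m : ℝ, 0 ≤ Jk g y - 2 * m * A1 + m ^ 2 * A0 := by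
    intro m
    have e : Jk g y - 2 * m * A1 + m ^ 2 * A0 = ∫ t : ℝ, (‖LT g (t * I)‖ - m) ^ 2 * kap (y - t) := by
      have e1 : ∀ t : ℝ, (‖LT g (t * I)‖ - m) ^ 2 * kap (y - t) =
          (den g t * kap (y - t) - 2 * m * (‖LT g (t * I)‖ * kap (y - t))) + m ^ 2 * kap (y - t) := by
        intro t
        unfold WB.den
        ring
      have i12 : Integrable (fun t : ℝ => den g t * kap (y - t) - 2 * m * (‖LT g (t * I)‖ * kap (y - t))) :=
        i2.sub (i1.const_mul _)
      rw [integral_congr_ae (Eventually.of_forall e1), integral_add i12 (i0.const_mul _),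
        integral_sub i2 (i1.const_mul _), integral_const_mul, integral_const_mul, ← hA0, ← hA1]
      rfl
    rw [e]
    exact integral_nonneg fun t => mul_nonneg (sq_nonneg _) (kap_nonneg _)
  have hA00 : 0 ≤ A0 := by
    rw [hA0]
    exact integral_nonneg fun t => kap_nonneg _
  have hJ := Jk_nonneg g y
  rw [← hA1]
  have h1 : A1 ^ 2 ≤ A0 * Jk g y := by
    rcases hA00.eq_or_lt with h0 | h0
    · -- then `A1 = 0`
      have h2 : A1 = 0 := by
        by_contra hne
        have h3 := key ((Jk g y + 1) / (2 * A1))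
        rw [← h0, mul_zero, add_zero] at h3
        have h4 : 2 * ((Jk g y + 1) / (2 * A1)) * A1 = Jk g y + 1 := by field_simp
        rw [h4] at h3
        linarith
      rw [h2, ← h0]
      simp
    · have h3 := key (A1 / A0)
      have h4 : Jk g y - 2 * (A1 / A0) * A1 + (A1 / A0) ^ 2 * A0 = Jk g y - A1 ^ 2 / A0 := by
        field_simp
        ring
      rw [h4, sub_nonneg, div_le_iff₀ h0] at h3
      linarith
  refine h1.trans ?_
  have := kap_int_le y
  rw [← hA0] at this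
  gcongr

/-- pointwise bound off the line -/
lemma LT_pt : ∃ A : ℝ, 0 < A ∧ ∀ (c β : ℝ), 1 ≤ c → 0 ≤ β → β ≤ 1 / 2 → ∀ g : ℝ → ℂ, TF g →
    (∀ x, x ∉ Icc (-c) c → g x = 0) → ∀ z : ℂ, |z.re| ≤ β →
    ‖LT g z‖ ^ 2 ≤ A * c ^ 2 * Real.exp (2 * β * c) * Jk g z.im := by
  obtain ⟨C, hC, hCb⟩ := LT_bound etc_tf (1 / 2)
  refine ⟨4 * C ^ 2 + 1, by positivity, fun c β hc hβ hβ2 g h hs z hz => ?_⟩
  have hc0 : 0 < c := by linarith
  have hb : 0 < c + 1 / 4 := by linarith
  have hexp : ContDiff ℝ ∞ (fun x : ℝ => cexp (z * x)) := by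
    have : ContDiff ℝ ∞ (fun x : ℝ => z * (x : ℂ)) := contDiff_const.mul Complex.ofRealCLM.contDiff
    exact this.cexp
  have hav := WB.TF.av (c + 1 / 4) etc_tf
  obtain ⟨ψ, hψ⟩ : ∃ ψ : ℝ → ℂ, ψ = fun u : ℝ => ((2 * (c + 1 / 4) : ℂ) * av (c + 1 / 4) etc u) * cexp (z * u) :=
    ⟨_, rfl⟩
  have hψT : TF ψ := by
    rw [hψ]
    refine ⟨(contDiff_const.mul hav.smooth).mul hexp, ?_⟩
    exact (hav.supp.mul_left).mul_right
  have e1 : LT g z = ∫ u : ℝ, g u * ψ u := by
    unfold Helper61.W.LT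
    congr 1
    funext u
    by_cases hu : u ∈ Icc (-c) c
    · rw [hψ]
      simp only
      rw [av_etc hc0 hu, one_mul]
    · rw [hs u hu, zero_mul, zero_mul]
  have e2 : ∀ t : ℝ, LT ψ (-(t * I)) = (2 * (c + 1 / 4) : ℂ) * (Sb (c + 1 / 4) (z - t * I) * EE (z - t * I)) := by
    intro t
    rw [show Sb (c + 1 / 4) (z - t * I) * EE (z - t * I) = LT (av (c + 1 / 4) etc) (z - t * I) from
      (LT_av (c + 1 / 4) etc_tf _).symm]
    unfold Helper61.W.LT
    rw [← integral_const_mul, hψ]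
    congr 1
    funext u
    have : cexp ((z - t * I) * u) = cexp (z * u) * cexp (-(t * I) * u) := by
      rw [← Complex.exp_add]
      congr 1
      ring
    rw [this]
    ring
  have hpar := parseval h hψT
  rw [← e1] at hpar
  have hp := Real.pi_pos
  have hbd : ∀ t : ℝ, ‖LT g (t * I) * LT ψ (-(t * I))‖ ≤
      (2 * (c + 1 / 4) * Real.exp ((c + 1 / 4) * β) * C) * (‖LT g (t * I)‖ * kap (z.im - t)) := by
    intro t
    have r1 : (z - t * I).re = z.re := by simp
    have r2 : (z - t * I).im = z.im - t := by simp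
    have b1 : ‖Sb (c + 1 / 4) (z - t * I)‖ ≤ Real.exp ((c + 1 / 4) * β) := by
      refine (Sb_exp hb _).trans ?_
      rw [r1]
      gcongr
    have b2 : ‖EE (z - t * I)‖ ≤ C * kap (z.im - t) := by
      have := hCb (z - t * I) (by rw [r1]; linarith)
      rw [r2] at this
      refine this.trans (le_of_eq ?_)
      unfold kap
      ring
    rw [norm_mul, e2, norm_mul (2 * (c + 1 / 4) : ℂ), norm_mul (Sb (c + 1 / 4) (z - t * I))]
    have b3 : ‖(2 * (c + 1 / 4) : ℂ)‖ = 2 * (c + 1 / 4) := by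
      have : (2 * (c + 1 / 4) : ℂ) = ((2 * (c + 1 / 4) : ℝ) : ℂ) := by push_cast; ring
      rw [this, Complex.norm_real, Real.norm_of_nonneg (by positivity)]
    rw [b3]
    have := kap_nonneg (z.im - t)
    calc ‖LT g (t * I)‖ * (2 * (c + 1 / 4) * (‖Sb (c + 1 / 4) (z - t * I)‖ * ‖EE (z - t * I)‖)) ≤
          ‖LT g (t * I)‖ * (2 * (c + 1 / 4) * (Real.exp ((c + 1 / 4) * β) * (C * kap (z.im - t)))) := by
          gcongr
      _ = _ := by ring
  have i1 : Integrable fun t : ℝ => ‖LT g (t * I)‖ * kap (z.im - t) := by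
    have hcc := LT_continuous h
    have hk := kap_cont
    refine ((kap_int z.im).add (Jk_int h z.im)).mono' ?_ (Eventually.of_forall fun t => ?_)
    · apply Continuous.aestronglyMeasurable
      fun_prop
    · rw [Real.norm_of_nonneg (mul_nonneg (norm_nonneg _) (kap_nonneg _))]
      show ‖LT g (t * I)‖ * kap (z.im - t) ≤ kap (z.im - t) + den g t * kap (z.im - t)
      unfold WB.den
      have := kap_nonneg (z.im - t)
      nlinarith [mul_nonneg this (sq_nonneg (‖LT g (t * I)‖ - 1))]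
  have h2 : 2 * Real.pi * ‖LT g z‖ ≤
      (2 * (c + 1 / 4) * Real.exp ((c + 1 / 4) * β) * C) * ∫ t : ℝ, ‖LT g (t * I)‖ * kap (z.im - t) := by
    have e3 : 2 * Real.pi * ‖LT g z‖ = ‖2 * Real.pi * LT g z‖ := by
      rw [norm_mul, norm_mul, Complex.norm_real, Real.norm_of_nonneg hp.le]
      norm_num
    rw [e3, hpar, ← integral_const_mul]
    exact norm_integral_le_of_norm_le (i1.const_mul _) (Eventually.of_forall hbd)
  have h3 := cs_kap h z.im
  set I1 := ∫ t : ℝ, ‖LT g (t * I)‖ * kap (z.im - t) with hI1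
  have hI10 : 0 ≤ I1 := integral_nonneg fun t => mul_nonneg (norm_nonneg _) (kap_nonneg _)
  have hJ := Jk_nonneg g z.im
  have h4 : (2 * Real.pi * ‖LT g z‖) ^ 2 ≤
      ((2 * (c + 1 / 4) * Real.exp ((c + 1 / 4) * β) * C) * I1) ^ 2 := by gcongr
  have h5 : ((2 * (c + 1 / 4) * Real.exp ((c + 1 / 4) * β) * C) * I1) ^ 2 ≤
      (2 * (c + 1 / 4)) ^ 2 * (Real.exp ((c + 1 / 4) * β)) ^ 2 * C ^ 2 * (Real.pi * Jk g z.im) := by
    have : ((2 * (c + 1 / 4) * Real.exp ((c + 1 / 4) * β) * C) * I1) ^ 2 =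
      (2 * (c + 1 / 4)) ^ 2 * (Real.exp ((c + 1 / 4) * β)) ^ 2 * C ^ 2 * I1 ^ 2 := by ring
    rw [this]
    gcongr
  have h6 : (Real.exp ((c + 1 / 4) * β)) ^ 2 ≤ Real.exp (2 * β * c) * 2 := by
    rw [← Real.exp_nat_mul]
    have e4 : ((2 : ℕ) : ℝ) * ((c + 1 / 4) * β) = 2 * β * c + β / 2 := by
      push_cast
      ring
    rw [e4, Real.exp_add]
    gcongr
    calc Real.exp (β / 2) ≤ Real.exp (1 / 4) := by
          rw [Real.exp_le_exp]
          linarith
      _ ≤ 2 := Helper76.EW.exp_quarter_le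
  have h7 : (2 * (c + 1 / 4)) ^ 2 ≤ 8 * c ^ 2 := by nlinarith
  have h8 : 4 * Real.pi ^ 2 * ‖LT g z‖ ^ 2 ≤ (8 * c ^ 2) * (Real.exp (2 * β * c) * 2) * C ^ 2 * (Real.pi * Jk g z.im) := by
    calc 4 * Real.pi ^ 2 * ‖LT g z‖ ^ 2 = (2 * Real.pi * ‖LT g z‖) ^ 2 := by ring
      _ ≤ (2 * (c + 1 / 4)) ^ 2 * (Real.exp ((c + 1 / 4) * β)) ^ 2 * C ^ 2 * (Real.pi * Jk g z.im) := h4.trans h5
      _ ≤ _ := by gcongr
  have h9 : Real.pi * (4 * Real.pi * ‖LT g z‖ ^ 2) ≤ Real.pi * (16 * C ^ 2 * c ^ 2 * Real.exp (2 * β * c) * Jk g z.im) := by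
    calc Real.pi * (4 * Real.pi * ‖LT g z‖ ^ 2) = 4 * Real.pi ^ 2 * ‖LT g z‖ ^ 2 := by ring
      _ ≤ _ := h8
      _ = _ := by ring
  have h10 := le_of_mul_le_mul_left h9 hp
  have h11 : 4 * ‖LT g z‖ ^ 2 ≤ 4 * Real.pi * ‖LT g z‖ ^ 2 := by
    have : 1 ≤ Real.pi := by linarith [Real.pi_gt_three]
    nlinarith [sq_nonneg ‖LT g z‖, mul_nonneg (sub_nonneg.mpr this) (sq_nonneg ‖LT g z‖)]
  have h12 : 0 ≤ c ^ 2 * Real.exp (2 * β * c) * Jk g z.im := by positivity
  nlinarith

/-! ### Sums over the zeros -/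

lemma sum_kap : ∃ C : ℝ, 0 < C ∧ ∀ (t : ℝ) (S : Finset Zr),
    ∑ ρ ∈ S, mm ρ * kap ((zz ρ).im - t) ≤ C * Real.log (2 + |t|) := by
  obtain ⟨C, hC, hloc⟩ := loc_zeta
  have hsum : Summable fun n : ℤ => 1 / (1 + |(n : ℝ)|) ^ (2 : ℝ) := summable_int (by norm_num)
  obtain ⟨B, hB⟩ : ∃ B : ℝ, B = ∑' n : ℤ, 1 / (1 + |(n : ℝ)|) ^ (2 : ℝ) := ⟨_, rfl⟩
  have hB0 : 0 ≤ B := by
    rw [hB]
    exact tsum_nonneg fun n => by positivity
  refine ⟨432 * C * (B + 1), by positivity, fun t S => ?_⟩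
  classical
  have hl2 : 1 / 2 < Real.log 2 := by have := Real.log_two_gt_d9; linarith
  have hlt : Real.log 2 ≤ Real.log (2 + |t|) := Real.log_le_log (by norm_num) (by linarith [abs_nonneg t])
  rw [← Finset.sum_fiberwise_of_maps_to (g := fun i => ⌊(zz i).im⌋) (t := S.image fun i => ⌊(zz i).im⌋)
    (fun i hi => Finset.mem_image_of_mem _ hi)]
  have hterm : ∀ n : ℤ, ∑ i ∈ S with ⌊(zz i).im⌋ = n, mm i * kap ((zz i).im - t) ≤
      432 * C * Real.log (2 + |t|) * (1 / (1 + |((n - ⌊t⌋ : ℤ) : ℝ)|) ^ (2 : ℝ)) := by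
    intro n
    set s : ℝ := (n : ℝ) - t with hs
    have h1 : ∀ i ∈ S.filter (fun i => ⌊(zz i).im⌋ = n), mm i * kap ((zz i).im - t) ≤
        mm i * (9 * kap s) := by
      intro i hi
      rw [Finset.mem_filter] at hi
      have h2 := Int.floor_le (zz i).im
      have h3 := Int.lt_floor_add_one (zz i).im
      rw [hi.2] at h2 h3
      have hm : 0 ≤ mm i := cfg_zeta.m_nonneg i
      apply mul_le_mul_of_nonneg_left _ hm
      have h4 : 1 + s ^ 2 ≤ 3 * (1 + ((zz i).im - t) ^ 2) := by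
        have h5 : s ^ 2 ≤ 2 * ((zz i).im - t) ^ 2 + 2 * ((zz i).im - n) ^ 2 := by
          rw [hs]
          nlinarith [sq_nonneg (((zz i).im - t) + ((zz i).im - n))]
        have h6 : ((zz i).im - n) ^ 2 ≤ 1 := by nlinarith
        nlinarith [sq_nonneg ((zz i).im - t)]
      unfold kap
      rw [mul_one_div, div_le_div_iff₀ (by positivity) (by positivity)]
      calc 1 * (1 + s ^ 2) ^ 2 ≤ 1 * (3 * (1 + ((zz i).im - t) ^ 2)) ^ 2 := by gcongr
        _ = _ := by ring
    have h7 : Real.log (2 + |(n : ℝ)|) ≤ Real.log (2 + |t|) * (2 * (1 + s ^ 2)) := by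
      have e1 : 2 + |(n : ℝ)| ≤ (2 + |t|) * (1 + |s|) := by
        have : |(n : ℝ)| ≤ |t| + |s| := by
          have : (n : ℝ) = t + s := by rw [hs]; ring
          rw [this]
          exact abs_add_le _ _
        nlinarith [abs_nonneg t, abs_nonneg s, mul_nonneg (abs_nonneg t) (abs_nonneg s)]
      calc Real.log (2 + |(n : ℝ)|) ≤ Real.log ((2 + |t|) * (1 + |s|)) := Real.log_le_log (by positivity) e1
        _ = Real.log (2 + |t|) + Real.log (1 + |s|) := Real.log_mul (by positivity) (by positivity)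
        _ ≤ Real.log (2 + |t|) + |s| := by
          have := Real.log_le_sub_one_of_pos (show 0 < 1 + |s| by positivity)
          linarith
        _ ≤ Real.log (2 + |t|) * (2 * (1 + s ^ 2)) := by
          have e2 : |s| ≤ Real.log (2 + |t|) * (2 * |s|) := by nlinarith [abs_nonneg s]
          have e3 : 2 * |s| ≤ 1 + s ^ 2 := by
            rw [← sq_abs s]
            nlinarith [sq_nonneg (|s| - 1)]
          have e4 : 0 ≤ Real.log (2 + |t|) := by linarith
          nlinarith [sq_nonneg s, mul_nonneg e4 (sq_nonneg s), mul_le_mul_of_nonneg_left e3 e4]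
    have h8 : kap s * (1 + s ^ 2) = 1 / (1 + s ^ 2) := by
      unfold kap
      field_simp
    have h9 : 1 / (1 + s ^ 2) ≤ 24 * (1 / (1 + |((n - ⌊t⌋ : ℤ) : ℝ)|) ^ (2 : ℝ)) := by
      have e5 : (1 + |((n - ⌊t⌋ : ℤ) : ℝ)|) ^ (2 : ℝ) = (1 + |((n - ⌊t⌋ : ℤ) : ℝ)|) ^ 2 := by norm_cast
      rw [e5, mul_one_div, div_le_div_iff₀ (by positivity) (by positivity)]
      have e6 : |((n - ⌊t⌋ : ℤ) : ℝ)| ≤ |s| + 1 := by
        push_cast
        have h2 := Int.floor_le t
        have h3 := Int.lt_floor_add_one t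
        have : (n : ℝ) - ⌊t⌋ = s + (t - ⌊t⌋) := by rw [hs]; ring
        rw [this]
        refine (abs_add_le _ _).trans ?_
        have : |t - ⌊t⌋| ≤ 1 := by
          rw [abs_le]
          constructor <;> linarith
        linarith
      have e7 : (1 + |((n - ⌊t⌋ : ℤ) : ℝ)|) ^ 2 ≤ (2 + |s|) ^ 2 := by
        have := abs_nonneg ((n - ⌊t⌋ : ℤ) : ℝ)
        exact pow_le_pow_left₀ (by positivity) (by linarith) 2
      have e8 : (2 + |s|) ^ 2 ≤ 8 * (1 + s ^ 2) := by
        rw [← sq_abs s]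
        nlinarith [sq_nonneg (|s| - 1), sq_nonneg (|s|)]
      nlinarith [sq_nonneg s]
    have hk0 := kap_nonneg s
    have hlog0 : 0 ≤ Real.log (2 + |t|) := by linarith
    calc ∑ i ∈ S with ⌊(zz i).im⌋ = n, mm i * kap ((zz i).im - t)
        ≤ ∑ i ∈ S with ⌊(zz i).im⌋ = n, mm i * (9 * kap s) := Finset.sum_le_sum h1
      _ = (∑ i ∈ S with ⌊(zz i).im⌋ = n, mm i) * (9 * kap s) := by rw [Finset.sum_mul]
      _ ≤ (C * Real.log (2 + |(n : ℝ)|)) * (9 * kap s) := by
          gcongr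
          exact hloc n _ fun i hi => (Finset.mem_filter.mp hi).2
      _ ≤ (C * (Real.log (2 + |t|) * (2 * (1 + s ^ 2)))) * (9 * kap s) := by gcongr
      _ = 18 * C * Real.log (2 + |t|) * (kap s * (1 + s ^ 2)) := by ring
      _ = 18 * C * Real.log (2 + |t|) * (1 / (1 + s ^ 2)) := by rw [h8]
      _ ≤ 18 * C * Real.log (2 + |t|) * (24 * (1 / (1 + |((n - ⌊t⌋ : ℤ) : ℝ)|) ^ (2 : ℝ))) := by gcongr
      _ = _ := by ring
  have hlog0 : 0 ≤ Real.log (2 + |t|) := by linarith
  refine (Finset.sum_le_sum fun n _ => hterm n).trans ?_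
  rw [← Finset.mul_sum]
  have hsh : Summable fun n : ℤ => 1 / (1 + |((n - ⌊t⌋ : ℤ) : ℝ)|) ^ (2 : ℝ) :=
    hsum.comp_injective (i := fun n : ℤ => n - ⌊t⌋) (sub_left_injective)
  have h10 : ∑ n ∈ S.image (fun i => ⌊(zz i).im⌋), (1 / (1 + |((n - ⌊t⌋ : ℤ) : ℝ)|) ^ (2 : ℝ)) ≤ B + 1 := by
    have h11 := hsh.sum_le_tsum (S.image fun i => ⌊(zz i).im⌋) fun n _ => by positivity
    have h12 : ∑' n : ℤ, 1 / (1 + |((n - ⌊t⌋ : ℤ) : ℝ)|) ^ (2 : ℝ) = B := by
      rw [hB]
      exact (Equiv.subRight ⌊t⌋).tsum_eq fun n : ℤ => 1 / (1 + |(n : ℝ)|) ^ (2 : ℝ)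
    rw [h12] at h11
    linarith
  calc 432 * C * Real.log (2 + |t|) * ∑ n ∈ S.image (fun i => ⌊(zz i).im⌋), (1 / (1 + |((n - ⌊t⌋ : ℤ) : ℝ)|) ^ (2 : ℝ)) ≤
        432 * C * Real.log (2 + |t|) * (B + 1) := by gcongr
    _ = _ := by ring

/-- the logarithmic weight -/
noncomputable def lgw (t : ℝ) : ℝ := Real.log (2 + |t|)

lemma lgw_nonneg (t : ℝ) : 0 ≤ lgw t := Real.log_nonneg (by linarith [abs_nonneg t])

lemma lgw_cont : Continuous lgw := by
  unfold lgw
  refine Continuous.log (by fun_prop) fun t => ?_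
  have := abs_nonneg t
  positivity

lemma lgw_le (t : ℝ) : lgw t ≤ 1 + t ^ 2 := by
  unfold lgw
  have h1 := Real.log_le_sub_one_of_pos (show 0 < 2 + |t| by positivity)
  have h2 : |t| ≤ t ^ 2 + 1 / 4 := by
    rw [← sq_abs t]
    nlinarith [sq_nonneg (|t| - 1 / 2)]
  have h3 : Real.log (2 + |t|) ≤ 1 + t ^ 2 := by
    have h4 : Real.log (2 + |t|) = Real.log 2 + Real.log (1 + |t| / 2) := by
      rw [← Real.log_mul (by norm_num) (by positivity)]
      congr 1
      ring
    have h5 := Real.log_le_sub_one_of_pos (show 0 < 1 + |t| / 2 by positivity)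
    have h6 := Real.log_two_lt_d9
    linarith [sq_nonneg t]
  exact h3

lemma lg_int (h : TF g) : Integrable fun t : ℝ => lgw t * den g t := by
  refine (E1_int h).mono' ?_ (Eventually.of_forall fun t => ?_)
  · apply Continuous.aestronglyMeasurable
    have := lgw_cont
    have := den_cont h
    fun_prop
  · rw [Real.norm_of_nonneg (mul_nonneg (lgw_nonneg t) (den_nonneg g t))]
    exact mul_le_mul_of_nonneg_right (lgw_le t) (den_nonneg g t)

lemma Ew_lg_nonneg (g : ℝ → ℂ) : 0 ≤ Ew lgw g :=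
  integral_nonneg fun t => mul_nonneg (lgw_nonneg t) (den_nonneg g t)

lemma sum_Jk : ∃ C : ℝ, 0 < C ∧ ∀ g : ℝ → ℂ, TF g →
    Summable (fun ρ : Zr => mm ρ * Jk g (zz ρ).im) ∧ ∑' ρ : Zr, mm ρ * Jk g (zz ρ).im ≤ C * Ew lgw g := by
  obtain ⟨C, hC, hCb⟩ := sum_kap
  refine ⟨C, hC, fun g h => ?_⟩
  have h0 : ∀ ρ : Zr, 0 ≤ mm ρ * Jk g (zz ρ).im := fun ρ => mul_nonneg (cfg_zeta.m_nonneg ρ) (Jk_nonneg g _)
  have h1 : ∀ S : Finset Zr, ∑ ρ ∈ S, mm ρ * Jk g (zz ρ).im ≤ C * Ew lgw g := by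
    intro S
    have e1 : ∑ ρ ∈ S, mm ρ * Jk g (zz ρ).im = ∫ t : ℝ, den g t * ∑ ρ ∈ S, mm ρ * kap ((zz ρ).im - t) := by
      have e2 : ∀ t : ℝ, den g t * ∑ ρ ∈ S, mm ρ * kap ((zz ρ).im - t) =
          ∑ ρ ∈ S, mm ρ * (den g t * kap ((zz ρ).im - t)) := by
        intro t
        rw [Finset.mul_sum]
        exact Finset.sum_congr rfl fun ρ _ => by ring
      rw [integral_congr_ae (Eventually.of_forall e2), integral_finsetSum]
      · exact Finset.sum_congr rfl fun ρ _ => by rw [integral_const_mul]; rfl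
      · intro ρ _
        exact (Jk_int h _).const_mul _
    rw [e1]
    unfold Ew
    rw [← integral_const_mul]
    refine integral_mono ?_ ((lg_int h).const_mul C) fun t => ?_
    · have e2 : ∀ t : ℝ, ∑ ρ ∈ S, mm ρ * (den g t * kap ((zz ρ).im - t)) =
          den g t * ∑ ρ ∈ S, mm ρ * kap ((zz ρ).im - t) := by
        intro t
        rw [Finset.mul_sum]
        exact Finset.sum_congr rfl fun ρ _ => by ring
      have := integrable_finsetSum S fun ρ _ => (Jk_int h (zz ρ).im).const_mul (mm ρ)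
      exact this.congr (Eventually.of_forall e2)
    · show den g t * ∑ ρ ∈ S, mm ρ * kap ((zz ρ).im - t) ≤ C * (lgw t * den g t)
      calc den g t * ∑ ρ ∈ S, mm ρ * kap ((zz ρ).im - t) ≤ den g t * (C * Real.log (2 + |t|)) :=
            mul_le_mul_of_nonneg_left (hCb t S) (den_nonneg g t)
        _ = _ := by unfold lgw; ring
  exact ⟨summable_of_sum_le h0 h1, Real.tsum_le_of_sum_le h0 h1⟩

/-- **Lower bound of the form, logarithmic norm.** -/
theorem form_ge_lg : ∃ A : ℝ, 0 < A ∧ ∀ X : ℝ, 8 ≤ X → ∀ β : ℝ, 0 ≤ β → ∀ g : ℝ → ℂ, Tst X g →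
    (∀ ρ : Zr, 1 / 2 < (ρ : ℂ).re → 1 / 2 + β < (ρ : ℂ).re → TT g (ρ : ℂ) = 0) →
    -(A * Real.log X ^ 2 * X ^ β * Ew lgw g) ≤ (Wf g).re := by
  obtain ⟨A, hA, hpt⟩ := LT_pt
  obtain ⟨C, hC, hJ⟩ := sum_Jk
  refine ⟨A * C, by positivity, fun X hX β0 hβ0 g hg hz0 => ?_⟩
  obtain ⟨β, hβ⟩ : ∃ β : ℝ, β = min β0 (1 / 2) := ⟨_, rfl⟩
  have hβ1 : 0 ≤ β := by rw [hβ]; exact le_min hβ0 (by norm_num)
  have hβ2 : β ≤ 1 / 2 := by rw [hβ]; exact min_le_right _ _
  have hβ3 : β ≤ β0 := by rw [hβ]; exact min_le_left _ _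
  have hX0 : 0 < X := by linarith
  have hX1 : 1 < X := by linarith
  have hz : ∀ ρ : Zr, 1 / 2 < (ρ : ℂ).re → 1 / 2 + β < (ρ : ℂ).re → TT g (ρ : ℂ) = 0 := by
    intro ρ h1 h2
    apply hz0 ρ h1
    have := ρ.2.2.2
    rcases min_choice β0 (1 / 2) with h3 | h3
    · rw [← hβ] at h3
      linarith
    · rw [← hβ] at h3
      linarith
  have hL2 : 2 ≤ Real.log X := by
    rw [Real.le_log_iff_exp_le hX0]
    have h1 := Real.exp_one_lt_d9
    have h2 : Real.exp 2 = Real.exp 1 ^ 2 := by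
      rw [← Real.exp_nat_mul]
      norm_num
    rw [h2]
    nlinarith [Real.exp_pos 1]
  have hc : 1 ≤ Real.log X / 2 := by linarith
  have h := hg.tf
  obtain ⟨S1, hS1⟩ := hJ g h
  have hexp : Real.exp (2 * β * (Real.log X / 2)) = X ^ β := by
    rw [Real.rpow_def_of_pos hX0]
    ring_nf
  obtain ⟨K, hK⟩ : ∃ K : ℝ, K = A * (Real.log X / 2) ^ 2 * X ^ β := ⟨_, rfl⟩
  have hK0 : 0 ≤ K := by rw [hK]; positivity
  have key : ∀ ρ : Zr, -(K * (mm ρ * Jk g (zz ρ).im)) ≤ (wt g ρ).re := by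
    intro ρ
    have hm : 0 ≤ mm ρ := cfg_zeta.m_nonneg ρ
    have hJ0 := Jk_nonneg g (zz ρ).im
    have n1 : 0 ≤ K * (mm ρ * Jk g (zz ρ).im) := by positivity
    by_cases hl : (ρ : ℂ).re = 1 / 2
    · have := wt_line h ρ hl
      linarith
    by_cases hzero : wt g ρ = 0
    · rw [hzero, Complex.zero_re]
      linarith
    have hβ' : |(zz ρ).re| ≤ β := by
      by_contra hlt
      push Not at hlt
      apply hzero
      rw [zz_re] at hlt
      rcases lt_or_gt_of_ne hl with h1 | h1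
      · have h2 := hz (reflE ρ) (by
          show 1 / 2 < (1 - conj (ρ : ℂ)).re
          simp only [Complex.sub_re, Complex.one_re, Complex.conj_re]
          linarith) (by
          show 1 / 2 + β < (1 - conj (ρ : ℂ)).re
          simp only [Complex.sub_re, Complex.one_re, Complex.conj_re]
          rw [abs_of_neg (by linarith)] at hlt
          linarith)
        rw [TT_eq] at h2
        have h3 : LT g (-conj (zz ρ)) = 0 := by
          rw [← zz_refl]
          exact h2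
        rw [wt_LT, h3]
        simp
      · have h2 := hz ρ h1 (by
          rw [abs_of_pos (by linarith)] at hlt
          linarith)
        rw [TT_eq] at h2
        have h3 : LT g (zz ρ) = 0 := h2
        rw [wt_LT, h3]
        simp
    have b1 := hpt (Real.log X / 2) β hc hβ1 hβ2 g h hg.2 (zz ρ) hβ'
    have b2 := hpt (Real.log X / 2) β hc hβ1 hβ2 g h hg.2 (-conj (zz ρ)) (by simpa using hβ')
    have e1 : (-conj (zz ρ)).im = (zz ρ).im := by simp
    rw [e1] at b2
    rw [hexp] at b1 b2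
    have hlow : -‖wt g ρ‖ ≤ (wt g ρ).re := (abs_le.mp (Complex.abs_re_le_norm _)).1
    have h4 : ‖wt g ρ‖ ≤ K * (mm ρ * Jk g (zz ρ).im) := by
      rw [wt_norm']
      have h5 : ‖LT g (zz ρ)‖ * ‖LT g (-conj (zz ρ))‖ ≤ A * (Real.log X / 2) ^ 2 * X ^ β * Jk g (zz ρ).im := by
        nlinarith [sq_nonneg (‖LT g (zz ρ)‖ - ‖LT g (-conj (zz ρ))‖)]
      calc mm ρ * (‖LT g (zz ρ)‖ * ‖LT g (-conj (zz ρ))‖) ≤
            mm ρ * (A * (Real.log X / 2) ^ 2 * X ^ β * Jk g (zz ρ).im) := by gcongr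
        _ = _ := by rw [hK]; ring
    linarith
  have S2 := wt_summable h
  have S2r := Complex.reCLM.summable S2
  have r1 : (Wf g).re = ∑' ρ : Zr, (wt g ρ).re := Complex.reCLM.map_tsum S2
  rw [r1]
  have h6 := (S1.mul_left K).neg.tsum_le_tsum key S2r
  rw [tsum_neg, tsum_mul_left] at h6
  have hE := Ew_lg_nonneg g
  have h7 : K * ∑' ρ : Zr, mm ρ * Jk g (zz ρ).im ≤ A * C * Real.log X ^ 2 * X ^ β0 * Ew lgw g := by
    calc K * ∑' ρ : Zr, mm ρ * Jk g (zz ρ).im ≤ K * (C * Ew lgw g) := by gcongr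
      _ ≤ (A * Real.log X ^ 2 * X ^ β0) * (C * Ew lgw g) := by
        have h8 : K ≤ A * Real.log X ^ 2 * X ^ β0 := by
          rw [hK]
          have : (Real.log X / 2) ^ 2 ≤ Real.log X ^ 2 := by nlinarith
          have h9 : X ^ β ≤ X ^ β0 := Real.rpow_le_rpow_of_exponent_le hX1.le hβ3
          gcongr
        gcongr
      _ = _ := by ring
  linarith

end Pool.Agent.Helper42.MI
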