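import Pool.Agent.Helper42.MI.Up
import Pool.Agent.Helper76.EW.Base

set_option autoImplicit false

/-!
# The level sets of Weil's form: lower bound for the index
-/

namespace Pool.Agent.Helper42.MI

open Complex Filter Topology Set MeasureTheory
open scoped ComplexConjugate ContDiff
open Pool.Agent.Helper61.W
open Pool.Agent.Helper42.WB (en en_eq_sq en_eq en_nonneg den integrable_den0 Sb Sb_eq Sb_zero Sb_line Sb_norm)
open Pool.Agent.Helper76.EW (PW tf_of_supp EE PW_EE EE_near_one)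
open Pool.Agent.V11271.LI (Zr mm cfg_zeta zz reflE zz_im zz_re zz_refl mm_refl mm_one_le)

variable {g : ℝ → ℂ}

/-! ### Plancherel -/

lemma den_deriv (h : TF g) (t : ℝ) : den (deriv g) t = t ^ 2 * den g t := by
  unfold WB.den
  rw [LT_deriv h, norm_mul, norm_neg, mul_pow]
  congr 1
  rw [norm_mul, Complex.norm_I, mul_one, Complex.norm_real, Real.norm_eq_abs, sq_abs]

lemma E1_int (h : TF g) : Integrable fun t : ℝ => (1 + t ^ 2) * den g t := by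
  have := (integrable_den0 h).add (integrable_den0 h.deriv)
  refine this.congr (Eventually.of_forall fun t => ?_)
  show den g t + den (deriv g) t = _
  rw [den_deriv h]
  ring

lemma E1_plancherel (h : TF g) : 2 * Real.pi * E1 g = ∫ t : ℝ, (1 + t ^ 2) * den g t := by
  rw [E1_eq, mul_add, ← en_eq h, ← en_eq h.deriv, ← integral_add (integrable_den0 h) (integrable_den0 h.deriv)]
  congr 1
  funext t
  rw [den_deriv h]
  ring

/-- the weights -/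
structure Wgt (w : ℝ → ℝ) : Prop where
  meas : Measurable w
  ge : ∀ t, Real.log (2 + |t|) ≤ w t
  le : ∃ (C : ℝ) (A : ℕ), ∀ t, w t ≤ C * (1 + |t|) ^ A

lemma Wgt.nonneg {w : ℝ → ℝ} (hw : Wgt w) (t : ℝ) : 0 ≤ w t :=
  (Real.log_nonneg (by linarith [abs_nonneg t])).trans (hw.ge t)

/-- the weighted norms -/
noncomputable def Ew (w : ℝ → ℝ) (g : ℝ → ℂ) : ℝ := ∫ t : ℝ, w t * den g t

lemma LT_poly (n : ℕ) : ∀ g : ℝ → ℂ, TF g → ∃ C : ℝ, 0 ≤ C ∧ ∀ t : ℝ, |t| ^ n * ‖LT g (t * I)‖ ≤ C := by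
  induction n with
  | zero =>
    intro g h
    obtain ⟨C, hC, hb⟩ := LT_bound0 h 0
    refine ⟨C, hC, fun t => ?_⟩
    rw [pow_zero, one_mul]
    exact hb _ (by simp)
  | succ n ih =>
    intro g h
    obtain ⟨C, hC, hb⟩ := ih _ h.deriv
    refine ⟨C, hC, fun t => ?_⟩
    have h1 := hb t
    rw [LT_deriv h, norm_mul, norm_neg, norm_mul, Complex.norm_I, mul_one, Complex.norm_real,
      Real.norm_eq_abs] at h1
    rw [pow_succ]
    linarith

lemma LT_poly' (n : ℕ) (h : TF g) : ∃ C : ℝ, 0 ≤ C ∧ ∀ t : ℝ, (1 + |t|) ^ n * ‖LT g (t * I)‖ ≤ C := by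
  obtain ⟨C0, hC0, hb0⟩ := LT_poly 0 g h
  obtain ⟨C1, hC1, hb1⟩ := LT_poly n g h
  refine ⟨2 ^ n * (C0 + C1), by positivity, fun t => ?_⟩
  have h0 := hb0 t
  have h1 := hb1 t
  rw [pow_zero, one_mul] at h0
  have h2 : (1 + |t|) ^ n ≤ 2 ^ n * (1 + |t| ^ n) := by
    rcases le_total |t| 1 with ht | ht
    · calc (1 + |t|) ^ n ≤ 2 ^ n := by
            apply pow_le_pow_left₀ (by positivity)
            linarith
        _ ≤ 2 ^ n * (1 + |t| ^ n) := by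
            apply le_mul_of_one_le_right (by positivity)
            have : 0 ≤ |t| ^ n := by positivity
            linarith
    · calc (1 + |t|) ^ n ≤ (2 * |t|) ^ n := by
            apply pow_le_pow_left₀ (by positivity)
            linarith
        _ = 2 ^ n * |t| ^ n := mul_pow _ _ _
        _ ≤ 2 ^ n * (1 + |t| ^ n) := by
            apply mul_le_mul_of_nonneg_left _ (by positivity)
            linarith
  calc (1 + |t|) ^ n * ‖LT g (t * I)‖ ≤ (2 ^ n * (1 + |t| ^ n)) * ‖LT g (t * I)‖ := by gcongr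
    _ = 2 ^ n * (‖LT g (t * I)‖ + |t| ^ n * ‖LT g (t * I)‖) := by ring
    _ ≤ 2 ^ n * (C0 + C1) := by gcongr

lemma Ew_int {w : ℝ → ℝ} (hw : Wgt w) (h : TF g) : Integrable fun t : ℝ => w t * den g t := by
  obtain ⟨C, A, hC⟩ := hw.le
  obtain ⟨C0, hC0, hb0⟩ := LT_poly' 0 h
  obtain ⟨C1, hC1, hb1⟩ := LT_poly' (A + 2) h
  have hCp : 0 ≤ |C| := abs_nonneg C
  refine (integrable_inv_one_add_sq.const_mul (|C| * (C0 * C1))).mono' ?_ (Eventually.of_forall fun t => ?_)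
  · exact hw.meas.aestronglyMeasurable.mul (WB.den_cont h).aestronglyMeasurable
  · rw [Real.norm_of_nonneg (mul_nonneg (hw.nonneg t) (WB.den_nonneg g t))]
    have h0 := hb0 t
    have h1 := hb1 t
    rw [pow_zero, one_mul] at h0
    have h2 : w t ≤ |C| * (1 + |t|) ^ A := (hC t).trans (by
      apply mul_le_mul_of_nonneg_right (le_abs_self C)
      positivity)
    have h3 : (1 + t ^ 2) ≤ (1 + |t|) ^ 2 := by
      rw [← sq_abs t]
      nlinarith [abs_nonneg t]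
    rw [← div_eq_mul_inv, le_div_iff₀ (by positivity)]
    unfold WB.den
    calc w t * ‖LT g (t * I)‖ ^ 2 * (1 + t ^ 2) ≤ (|C| * (1 + |t|) ^ A) * ‖LT g (t * I)‖ ^ 2 * (1 + |t|) ^ 2 := by
          have := hw.nonneg t
          gcongr
      _ = |C| * (‖LT g (t * I)‖ * ((1 + |t|) ^ (A + 2) * ‖LT g (t * I)‖)) := by ring
      _ ≤ |C| * (C0 * C1) := by gcongr

lemma Ew_nonneg {w : ℝ → ℝ} (hw : Wgt w) (g : ℝ → ℂ) : 0 ≤ Ew w g :=
  integral_nonneg fun t => mul_nonneg (hw.nonneg t) (WB.den_nonneg g t)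

lemma Ew_le_sum {w : ℝ → ℝ} (hw : Wgt w) {k : ℕ} (h : TF g) {f : Fin k → ℝ → ℂ} (hf : ∀ i, TF (f i)) {K : Fin k → ℝ}
    (hK : ∀ t, den g t ≤ ∑ i, K i * den (f i) t) : Ew w g ≤ ∑ i, K i * Ew w (f i) := by
  unfold Ew
  have e1 : ∑ i, K i * ∫ t : ℝ, w t * den (f i) t = ∫ t : ℝ, ∑ i, K i * (w t * den (f i) t) := by
    rw [integral_finsetSum]
    · apply Finset.sum_congr rfl
      intro i _
      rw [integral_const_mul]
    · intro i _
      exact (Ew_int hw (hf i)).const_mul _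
  rw [e1]
  refine integral_mono (Ew_int hw h) (integrable_finsetSum _ fun i _ => (Ew_int hw (hf i)).const_mul _) fun t => ?_
  show w t * den g t ≤ ∑ i, K i * (w t * den (f i) t)
  calc w t * den g t ≤ w t * ∑ i, K i * den (f i) t :=
        mul_le_mul_of_nonneg_left (hK t) (hw.nonneg t)
    _ = _ := by
      rw [Finset.mul_sum]
      apply Finset.sum_congr rfl
      intro i _
      ring

/-! ### The box transform -/

lemma Sb_real {b : ℝ} (hb : 0 < b) (x : ℝ) : 1 ≤ ‖Sb b (x : ℂ)‖ := by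
  by_cases hx : x = 0
  · subst hx
    rw [Complex.ofReal_zero, Sb_zero hb, norm_one]
  have hx' : (x : ℂ) ≠ 0 := by exact_mod_cast hx
  have e1 : Sb b (x : ℂ) = ((Real.sinh (b * x) / (b * x) : ℝ) : ℂ) := by
    rw [Sb_eq hb hx', Real.sinh_eq]
    have hb' : (b : ℂ) ≠ 0 := by exact_mod_cast hb.ne'
    push_cast
    field_simp
  rw [e1, Complex.norm_real, Real.norm_eq_abs, abs_div, one_le_div (abs_pos.mpr (mul_ne_zero hb.ne' hx))]
  rw [Real.abs_sinh]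
  exact Real.self_le_sinh_iff.mpr (abs_nonneg _)

lemma Sb_far {b : ℝ} (hb : 0 < b) (hb1 : b ≤ 1) {z : ℂ} (hz : |z.re| ≤ 1 / 2) (hy : 6 / b ≤ |z.im|) :
    ‖Sb b z‖ ≤ Real.exp (-1) := by
  have hp : 0 < |z.im| := lt_of_lt_of_le (by positivity) hy
  have h1 := Sb_norm hb hb1 hz (abs_pos.mp hp)
  refine h1.trans ?_
  have h2 : 6 ≤ b * |z.im| := by
    rw [div_le_iff₀ hb] at hy
    linarith
  have h3 : 2 / (b * |z.im|) ≤ 1 / 3 := by
    rw [div_le_div_iff₀ (by positivity) (by norm_num)]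
    linarith
  have h4 : 1 / 3 ≤ Real.exp (-1) := by
    rw [Real.exp_neg, ← one_div, div_le_div_iff₀ (by norm_num) (Real.exp_pos 1)]
    have := Real.exp_one_lt_d9
    linarith
  linarith

lemma Sb_crit {b : ℝ} (hb : 0 < b) (t : ℝ) : ‖Sb b (t * I)‖ ≤ 1 := by
  rw [Sb_line hb, Complex.norm_real, Real.norm_eq_abs]
  exact Real.abs_sinc_le_one _

/-! ### The building blocks -/

open scoped Classical in
noncomputable def Pr (N : Finset Zr) (ρ : Zr) (z : ℂ) : ℂ :=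
  ∏ σ ∈ N.filter (fun σ => σ ≠ ρ ∧ σ ≠ reflE ρ), (z - zz σ)

noncomputable def Fm (b : ℝ) (N : Finset Zr) (ρ : Zr) (M : ℕ) (z : ℂ) : ℂ :=
  Pr N ρ z * (Sb b (z - ((zz ρ).im : ℝ) * I) ^ M * EE (z - ((zz ρ).im : ℝ) * I))

lemma Fm_PW {b : ℝ} (hb : 0 < b) (N : Finset Zr) (ρ : Zr) (M : ℕ) : PW (1 / 4 + M * b) (Fm b N ρ M) :=
  (PW.modul _ (PW.boxes hb PW_EE M)).mul_prod _ _

lemma Fm_zero {b : ℝ} {N : Finset Zr} {ρ σ : Zr} {M : ℕ} (hσ : σ ∈ N) (h1 : σ ≠ ρ) (h2 : σ ≠ reflE ρ) :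
    Fm b N ρ M (zz σ) = 0 := by
  classical
  unfold Fm Pr
  rw [Finset.prod_eq_zero (i := σ) (Finset.mem_filter.mpr ⟨hσ, h1, h2⟩) (sub_self _), zero_mul]

lemma Fm_le {b : ℝ} {N : Finset Zr} {ρ : Zr} {M : ℕ} {z : ℂ} {q : ℝ}
    (h : ‖Sb b (z - ((zz ρ).im : ℝ) * I)‖ ≤ q) : ‖Fm b N ρ M z‖ ≤ q ^ M * ‖Fm b N ρ 0 z‖ := by
  unfold Fm
  rw [pow_zero, one_mul, norm_mul, norm_mul, norm_mul, norm_pow]
  have h1 : ‖Sb b (z - ((zz ρ).im : ℝ) * I)‖ ^ M ≤ q ^ M := by gcongr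
  calc ‖Pr N ρ z‖ * (‖Sb b (z - ((zz ρ).im : ℝ) * I)‖ ^ M * ‖EE (z - ((zz ρ).im : ℝ) * I)‖) ≤
        ‖Pr N ρ z‖ * (q ^ M * ‖EE (z - ((zz ρ).im : ℝ) * I)‖) := by gcongr
    _ = _ := by ring

lemma Fm_ge {b : ℝ} {N : Finset Zr} {ρ : Zr} {M : ℕ} {z : ℂ}
    (h : 1 ≤ ‖Sb b (z - ((zz ρ).im : ℝ) * I)‖) : ‖Fm b N ρ 0 z‖ ≤ ‖Fm b N ρ M z‖ := by
  unfold Fm
  rw [pow_zero, one_mul, norm_mul, norm_mul, norm_mul, norm_pow]
  have h1 : 1 ≤ ‖Sb b (z - ((zz ρ).im : ℝ) * I)‖ ^ M := one_le_pow₀ h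
  calc ‖Pr N ρ z‖ * ‖EE (z - ((zz ρ).im : ℝ) * I)‖ =
        ‖Pr N ρ z‖ * (1 * ‖EE (z - ((zz ρ).im : ℝ) * I)‖) := by ring
    _ ≤ _ := by gcongr

lemma shift_re (ρ : Zr) : zz ρ - ((zz ρ).im : ℝ) * I = (((zz ρ).re : ℝ) : ℂ) := by
  apply Complex.ext <;> simp

lemma shift_re' (ρ : Zr) : -conj (zz ρ) - ((zz ρ).im : ℝ) * I = ((-(zz ρ).re : ℝ) : ℂ) := by
  apply Complex.ext <;> simp

lemma zz_inj {ρ σ : Zr} (h : zz ρ = zz σ) : ρ = σ := by
  unfold Pool.Agent.V11271.LI.zz at h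
  exact Subtype.ext (sub_left_injective h)

lemma EE_real_ne {x : ℝ} (hx : |x| ≤ 1 / 2) : EE (x : ℂ) ≠ 0 := by
  intro h
  have h1 : ‖(x : ℂ)‖ ≤ 4 := by
    rw [Complex.norm_real, Real.norm_eq_abs]
    linarith
  have h2 := EE_near_one h1
  rw [h, zero_sub, norm_neg, norm_one, Complex.norm_real, Real.norm_eq_abs] at h2
  linarith

lemma zz_re_abs (ρ : Zr) : |(zz ρ).re| ≤ 1 / 2 := by
  rw [zz_re, abs_le]
  have := ρ.2.2.1
  have := ρ.2.2.2
  constructor <;> linarith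

lemma Fm0_ne {b : ℝ} (N : Finset Zr) (ρ : Zr) : Fm b N ρ 0 (zz ρ) ≠ 0 := by
  classical
  unfold Fm
  rw [pow_zero, one_mul, shift_re]
  refine mul_ne_zero ?_ (EE_real_ne (zz_re_abs ρ))
  unfold Pr
  refine Finset.prod_ne_zero_iff.mpr fun σ hσ => ?_
  rw [sub_ne_zero]
  intro h
  exact (Finset.mem_filter.mp hσ).2.1 (zz_inj h).symm

lemma Fm0_ne' {b : ℝ} (N : Finset Zr) (ρ : Zr) : Fm b N ρ 0 (-conj (zz ρ)) ≠ 0 := by
  classical
  unfold Fm
  rw [pow_zero, one_mul, shift_re']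
  refine mul_ne_zero ?_ (EE_real_ne (by rw [abs_neg]; exact zz_re_abs ρ))
  unfold Pr
  refine Finset.prod_ne_zero_iff.mpr fun σ hσ => ?_
  rw [sub_ne_zero, ← zz_refl]
  intro h
  exact (Finset.mem_filter.mp hσ).2.2 (zz_inj h).symm

/-- the constant attached to a zero -/
noncomputable def cst (b : ℝ) (N : Finset Zr) (ρ : Zr) : ℝ :=
  ‖Fm b N ρ 0 (zz ρ)‖ * ‖Fm b N ρ 0 (-conj (zz ρ))‖

lemma cst_pos (b : ℝ) (N : Finset Zr) (ρ : Zr) : 0 < cst b N ρ :=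
  mul_pos (norm_pos_iff.mpr (Fm0_ne N ρ)) (norm_pos_iff.mpr (Fm0_ne' N ρ))

lemma cst_le {b : ℝ} (hb : 0 < b) (N : Finset Zr) (ρ : Zr) (M : ℕ) :
    cst b N ρ ≤ ‖Fm b N ρ M (zz ρ)‖ * ‖Fm b N ρ M (-conj (zz ρ))‖ := by
  unfold cst
  have h1 : ‖Fm b N ρ 0 (zz ρ)‖ ≤ ‖Fm b N ρ M (zz ρ)‖ := Fm_ge (by rw [shift_re]; exact Sb_real hb _)
  have h2 : ‖Fm b N ρ 0 (-conj (zz ρ))‖ ≤ ‖Fm b N ρ M (-conj (zz ρ))‖ :=
    Fm_ge (by rw [shift_re']; exact Sb_real hb _)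
  gcongr

/-! ### The pair of a zero and its reflection -/

lemma exists_phase (B : ℂ) : ∃ y : ℂ, ‖y‖ = 1 ∧ conj y * B = -((‖B‖ : ℝ) : ℂ) := by
  by_cases hB : B = 0
  · exact ⟨1, norm_one, by simp [hB]⟩
  · have hn : (‖B‖ : ℂ) ≠ 0 := by exact_mod_cast (norm_pos_iff.mpr hB).ne'
    refine ⟨-B / (‖B‖ : ℂ), ?_, ?_⟩
    · rw [norm_div, norm_neg, Complex.norm_real, norm_norm, div_self (norm_pos_iff.mpr hB).ne']
    · rw [map_div₀, map_neg, Complex.conj_ofReal]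
      have : conj B * B = ((‖B‖ : ℝ) : ℂ) ^ 2 := by
        rw [mul_comm, Complex.mul_conj, Complex.normSq_eq_norm_sq]
        push_cast
        rfl
      rw [div_mul_eq_mul_div, neg_mul, this]
      field_simp

lemma pair_term {a : ℝ} (ha : 0 ≤ a) {z A A' y x : ℂ} (hz : 0 ≤ z.re) (hy : ‖y‖ = 1)
    (hB : conj y * (A * conj A' * cexp (2 * a * (z.im * I))) = -((‖A‖ * ‖A'‖ : ℝ) : ℂ)) :
    (x * (cexp (a * z) * A + y * (cexp (-(a * z)) * A)) *
      conj (x * (cexp (a * (-conj z)) * A' + y * (cexp (-(a * (-conj z))) * A')))).re ≤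
      ‖x‖ ^ 2 * ((‖A‖ * ‖A'‖) * (3 - Real.exp (2 * a * z.re))) := by
  have e0 : conj (a * (-conj z) : ℂ) = -(a * z) := by
    rw [map_mul, map_neg, Complex.conj_conj, Complex.conj_ofReal]
    ring
  have e0' : conj (-(a * (-conj z)) : ℂ) = a * z := by
    rw [map_neg, e0, neg_neg]
  have e1 : conj (x * (cexp (a * (-conj z)) * A' + y * (cexp (-(a * (-conj z))) * A'))) =
      conj x * (cexp (-(a * z)) * conj A' + conj y * (cexp (a * z) * conj A')) := by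
    rw [map_mul, map_add, map_mul, map_mul, map_mul, ← Complex.exp_conj, ← Complex.exp_conj, e0, e0']
  have e2 : x * conj x = ((‖x‖ ^ 2 : ℝ) : ℂ) := by
    rw [Complex.mul_conj, Complex.normSq_eq_norm_sq]
  have e3 : y * conj y = 1 := by
    rw [Complex.mul_conj, Complex.normSq_eq_norm_sq, hy]
    norm_num
  have e4 : cexp (a * z) * cexp (-(a * z)) = 1 := by
    rw [← Complex.exp_add, add_neg_cancel, Complex.exp_zero]
  have e5 : cexp (a * z) * cexp (a * z) = cexp (2 * a * (z.im * I)) * ((Real.exp (2 * a * z.re) : ℝ) : ℂ) := by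
    rw [Complex.ofReal_exp, ← Complex.exp_add, ← Complex.exp_add]
    congr 1
    have := Complex.re_add_im z
    push_cast
    linear_combination (-2 * (a : ℂ)) * this
  have e6 : x * (cexp (a * z) * A + y * (cexp (-(a * z)) * A)) *
      (conj x * (cexp (-(a * z)) * conj A' + conj y * (cexp (a * z) * conj A'))) =
      ((‖x‖ ^ 2 : ℝ) : ℂ) * (2 * (A * conj A') + y * ((A * conj A') * (cexp (-(a * z)) * cexp (-(a * z)))) -
        ((‖A‖ * ‖A'‖ : ℝ) : ℂ) * ((Real.exp (2 * a * z.re) : ℝ) : ℂ)) := by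
    generalize ((‖A‖ * ‖A'‖ : ℝ) : ℂ) = nA at *
    generalize ((‖x‖ ^ 2 : ℝ) : ℂ) = nx at *
    generalize ((Real.exp (2 * a * z.re) : ℝ) : ℂ) = R at *
    linear_combination (A * conj A' * (cexp (a * z) + y * cexp (-(a * z))) *
        (cexp (-(a * z)) + conj y * cexp (a * z))) * e2 +
      nx * (A * conj A') * (1 + y * conj y) * e4 + nx * (A * conj A') * e3 +
      nx * (A * conj A') * conj y * e5 + nx * R * hB
  set P := A * conj A' with hP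
  rw [e1, e6, Complex.re_ofReal_mul, ← Complex.ofReal_mul, Complex.sub_re, Complex.ofReal_re]
  refine mul_le_mul_of_nonneg_left ?_ (by positivity)
  have n1 : ‖P‖ = ‖A‖ * ‖A'‖ := by rw [hP, norm_mul, RCLike.norm_conj]
  have n2 : ‖cexp (-(a * z))‖ ≤ 1 := by
    rw [Complex.norm_exp]
    have : (-((a : ℂ) * z)).re = -(a * z.re) := by simp
    rw [this, Real.exp_le_one_iff]
    have := mul_nonneg ha hz
    linarith
  have n3 : ‖2 * P + y * (P * (cexp (-(a * z)) * cexp (-(a * z))))‖ ≤ 3 * (‖A‖ * ‖A'‖) := by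
    calc ‖2 * P + y * (P * (cexp (-(a * z)) * cexp (-(a * z))))‖ ≤
          ‖2 * P‖ + ‖y * (P * (cexp (-(a * z)) * cexp (-(a * z))))‖ := norm_add_le _ _
      _ = 2 * ‖P‖ + 1 * (‖P‖ * (‖cexp (-(a * z))‖ * ‖cexp (-(a * z))‖)) := by
        rw [norm_mul 2 P, norm_mul y, norm_mul P, norm_mul (cexp (-(a * z))), hy, Complex.norm_ofNat]
      _ ≤ 2 * ‖P‖ + 1 * (‖P‖ * (1 * 1)) := by gcongr
      _ = _ := by rw [n1]; ring
  have n4 := (Complex.re_le_norm (2 * P + y * (P * (cexp (-(a * z)) * cexp (-(a * z)))))).trans n3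
  linarith

end Pool.Agent.Helper42.MI
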