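import Pool.Agent.Helper42.MI.Lo

set_option autoImplicit false

/-!
# The level sets of Weil's form: lower bound for the index, main estimate
-/

namespace Pool.Agent.Helper42.MI

open Complex Filter Topology Set MeasureTheory
open scoped ComplexConjugate ContDiff
open Pool.Agent.Helper61.W
open Pool.Agent.Helper42.WB (en en_eq_sq en_eq en_nonneg den integrable_den0 Sb Sb_eq Sb_zero Sb_line Sb_norm)
open Pool.Agent.Helper76.EW (PW tf_of_supp EE PW_EE EE_near_one)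
open Pool.Agent.V11271.LI (Zr mm cfg_zeta zz reflE zz_im zz_re zz_refl mm_refl mm_one_le)

variable {g : ℝ → ℂ}

lemma wt_LT (g : ℝ → ℂ) (ρ : Zr) : wt g ρ = (mm ρ : ℂ) * (LT g (zz ρ) * conj (LT g (-conj (zz ρ)))) := by
  have h : -conj (zz ρ) = 1 - conj (ρ : ℂ) - 1 / 2 := negconj ρ
  rw [h]
  unfold wt V11271.LI.mm
  rw [TT_eq, TT_eq]
  push_cast
  rfl

lemma wt_refl_re (g : ℝ → ℂ) (ρ : Zr) : (wt g (reflE ρ)).re = (wt g ρ).re := by
  have h : wt g (reflE ρ) = conj (wt g ρ) := by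
    rw [wt_LT, wt_LT, zz_refl, mm_refl, map_neg, Complex.conj_conj, neg_neg, map_mul, map_mul,
      Complex.conj_conj, Complex.conj_ofReal]
    ring
  rw [h, Complex.conj_re]

lemma wt_norm' (g : ℝ → ℂ) (ρ : Zr) : ‖wt g ρ‖ = mm ρ * (‖LT g (zz ρ)‖ * ‖LT g (-conj (zz ρ))‖) := by
  have hm : 0 ≤ mm ρ := cfg_zeta.m_nonneg ρ
  rw [wt_LT, norm_mul, norm_mul, RCLike.norm_conj, Complex.norm_real, Real.norm_of_nonneg hm]

lemma comb_sq {k : ℕ} {a : ℝ} (ha : 0 ≤ a) (x y F : Fin k → ℂ) (hy : ∀ i, ‖y i‖ = 1) (z : ℂ) :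
    ‖∑ j, x j * (cexp (a * z) * F j + y j * (cexp (-(a * z)) * F j))‖ ^ 2 ≤
      4 * Real.exp (2 * a * |z.re|) * k * ∑ j, ‖x j‖ ^ 2 * ‖F j‖ ^ 2 := by
  have h1 : ‖cexp (a * z)‖ ≤ Real.exp (a * |z.re|) := by
    rw [Complex.norm_exp, Real.exp_le_exp]
    have : ((a : ℂ) * z).re = a * z.re := by simp
    rw [this]
    exact mul_le_mul_of_nonneg_left (le_abs_self _) ha
  have h2 : ‖cexp (-(a * z))‖ ≤ Real.exp (a * |z.re|) := by
    rw [Complex.norm_exp, Real.exp_le_exp]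
    have : (-((a : ℂ) * z)).re = a * (-z.re) := by simp
    rw [this]
    exact mul_le_mul_of_nonneg_left (neg_le_abs _) ha
  have h3 : ∀ j, ‖x j * (cexp (a * z) * F j + y j * (cexp (-(a * z)) * F j))‖ ≤
      2 * Real.exp (a * |z.re|) * (‖x j‖ * ‖F j‖) := by
    intro j
    rw [norm_mul]
    have h4 : ‖cexp (a * z) * F j + y j * (cexp (-(a * z)) * F j)‖ ≤ 2 * Real.exp (a * |z.re|) * ‖F j‖ := by
      calc ‖cexp (a * z) * F j + y j * (cexp (-(a * z)) * F j)‖ ≤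
            ‖cexp (a * z) * F j‖ + ‖y j * (cexp (-(a * z)) * F j)‖ := norm_add_le _ _
        _ = ‖cexp (a * z)‖ * ‖F j‖ + 1 * (‖cexp (-(a * z))‖ * ‖F j‖) := by
          rw [norm_mul, norm_mul, norm_mul, hy]
        _ ≤ Real.exp (a * |z.re|) * ‖F j‖ + 1 * (Real.exp (a * |z.re|) * ‖F j‖) := by gcongr
        _ = _ := by ring
    calc ‖x j‖ * ‖cexp (a * z) * F j + y j * (cexp (-(a * z)) * F j)‖ ≤
          ‖x j‖ * (2 * Real.exp (a * |z.re|) * ‖F j‖) := by gcongr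
      _ = _ := by ring
  have h5 : ‖∑ j, x j * (cexp (a * z) * F j + y j * (cexp (-(a * z)) * F j))‖ ≤
      2 * Real.exp (a * |z.re|) * ∑ j, ‖x j‖ * ‖F j‖ := by
    rw [Finset.mul_sum]
    exact (norm_sum_le _ _).trans (Finset.sum_le_sum fun j _ => h3 j)
  have h6 : (∑ j, ‖x j‖ * ‖F j‖) ^ 2 ≤ k * ∑ j, ‖x j‖ ^ 2 * ‖F j‖ ^ 2 := by
    have := sq_sum_le_card_mul_sum_sq (s := (Finset.univ : Finset (Fin k))) (f := fun j => ‖x j‖ * ‖F j‖)
    rw [Finset.card_univ, Fintype.card_fin] at this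
    simp_rw [mul_pow] at this
    exact this
  have h7 : Real.exp (a * |z.re|) ^ 2 = Real.exp (2 * a * |z.re|) := by
    rw [← Real.exp_nat_mul]
    congr 1
    push_cast
    ring
  calc ‖∑ j, x j * (cexp (a * z) * F j + y j * (cexp (-(a * z)) * F j))‖ ^ 2 ≤
        (2 * Real.exp (a * |z.re|) * ∑ j, ‖x j‖ * ‖F j‖) ^ 2 := by gcongr
    _ = 4 * Real.exp (2 * a * |z.re|) * (∑ j, ‖x j‖ * ‖F j‖) ^ 2 := by
      rw [mul_pow, mul_pow, h7]
      ring
    _ ≤ 4 * Real.exp (2 * a * |z.re|) * (k * ∑ j, ‖x j‖ ^ 2 * ‖F j‖ ^ 2) := by gcongr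
    _ = _ := by ring

/-- the main estimate -/
theorem lower1 {w : ℝ → ℝ} (hw : Wgt w) {k : ℕ} (r : Fin k → Zr) (hinj : Function.Injective r) (hpos : ∀ i, 0 < (zz (r i)).re)
    {b : ℝ} (hb0 : 0 < b) (hb4 : b ≤ 1 / 4) :
    ∃ (K1 K2 : ℝ) (c : Fin k → ℝ), 0 ≤ K1 ∧ 0 ≤ K2 ∧ (∀ i, 0 < c i) ∧ ∀ L : ℝ, 8 ≤ L →
      (∀ i, 3 ≤ Real.exp (((1 - 2 * b) * L - 1) * (zz (r i)).re)) →
      ∃ g : Fin k → ℝ → ℂ, (∀ i, ContDiff ℝ ∞ (g i) ∧ ∀ x, x ∉ Icc (-(L / 2)) (L / 2) → g i x = 0) ∧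
        ∀ x : Fin k → ℂ, Ew w (fun t => ∑ i, x i * g i t) ≤ K2 * ∑ i, ‖x i‖ ^ 2 ∧
          (Wf fun t => ∑ i, x i * g i t).re ≤
            ∑ i, ‖x i‖ ^ 2 * (c i * (3 - Real.exp (((1 - 2 * b) * L - 1) * (zz (r i)).re)) + K1) := by
  classical
  have hH0 : 0 ≤ ∑ i, |(zz (r i)).im| + 6 / b := by positivity
  obtain ⟨N, hN⟩ : ∃ N : Finset Zr, ∀ ρ, ρ ∈ N ↔ |(zz ρ).im| ≤ ∑ i, |(zz (r i)).im| + 6 / b :=
    ⟨(finite_zeta _ hH0).toFinset, fun ρ => by simp⟩
  have hle : ∀ i, |(zz (r i)).im| ≤ ∑ i, |(zz (r i)).im| := fun i =>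
    Finset.single_le_sum (f := fun i => |(zz (r i)).im|) (fun j _ => abs_nonneg _) (Finset.mem_univ i)
  have h6b : 0 < 6 / b := by positivity
  have hrN : ∀ i, r i ∈ N := fun i => by
    rw [hN]
    have := hle i
    linarith
  have hrN' : ∀ i, reflE (r i) ∈ N := fun i => by
    rw [hN, zz_refl]
    have := hle i
    simp only [Complex.neg_im, Complex.conj_im, neg_neg]
    linarith
  have hne : ∀ i j, r i ≠ reflE (r j) := fun i j h => by
    have h1 := congrArg (fun ρ => (zz ρ).re) h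
    simp only [zz_refl, Complex.neg_re, Complex.conj_re] at h1
    have := hpos i
    have := hpos j
    linarith
  have hf0 := fun i => Fm_PW hb0 N (r i) 0
  choose f0 hf0T hf0s hf0L using hf0
  have hf0s' : ∀ i x, x ∉ Icc (-(1 / 4) : ℝ) (1 / 4) → f0 i x = 0 := by
    intro i x hx
    apply hf0s i x
    simpa using hx
  set B : Fin k → ℝ := fun i => 2 * (1 / 4) * Real.exp (2 * (1 / 2) * (1 / 4)) * E1 (f0 i) with hB
  have hB0 : ∀ i, 0 ≤ B i := fun i => mul_nonneg (by positivity) (E1_nonneg _)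
  have hE0 : ∀ i, 0 ≤ Ew w (f0 i) := fun i => Ew_nonneg hw _
  have hZ2 := Zp_nonneg 2
  refine ⟨8 * k * (∑ i, B i) * Zp 2, 4 * k * ∑ i, Ew w (f0 i), fun i => cst b N (r i),
    mul_nonneg (mul_nonneg (by positivity) (Finset.sum_nonneg fun i _ => hB0 i)) hZ2,
    mul_nonneg (by positivity) (Finset.sum_nonneg fun i _ => hE0 i), fun i => cst_pos _ _ _, ?_⟩
  intro L hL h3
  obtain ⟨M, hM1, hM2⟩ : ∃ M : ℕ, L ≤ M ∧ (M : ℝ) ≤ L + 1 :=
    ⟨⌈L⌉₊, Nat.le_ceil L, (Nat.ceil_lt_add_one (by linarith)).le⟩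
  obtain ⟨a, haeq⟩ : ∃ a : ℝ, a = L / 2 - (1 / 4 + M * b) := ⟨_, rfl⟩
  have hMb : (M : ℝ) * b ≤ (L + 1) * b := by gcongr
  have hMb2 : (L + 1) * b ≤ (L + 1) * (1 / 4) := by
    apply mul_le_mul_of_nonneg_left hb4
    linarith
  have ha : 0 ≤ a := by linarith
  have ha2 : (1 - 2 * b) * L - 1 ≤ 2 * a := by
    rw [haeq]
    linarith
  have haM : a ≤ M / 2 := by
    rw [haeq]
    have : 0 ≤ (M : ℝ) * b := by positivity
    linarith
  have hph : ∀ i, ∃ y : ℂ, ‖y‖ = 1 ∧ conj y * (Fm b N (r i) M (zz (r i)) * conj (Fm b N (r i) M (-conj (zz (r i)))) *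
      cexp (2 * a * ((zz (r i)).im * I))) =
      -((‖Fm b N (r i) M (zz (r i))‖ * ‖Fm b N (r i) M (-conj (zz (r i)))‖ : ℝ) : ℂ) := by
    intro i
    obtain ⟨y, h1, h2⟩ := exists_phase (Fm b N (r i) M (zz (r i)) * conj (Fm b N (r i) M (-conj (zz (r i)))) *
      cexp (2 * a * ((zz (r i)).im * I)))
    refine ⟨y, h1, ?_⟩
    rw [h2, norm_mul, norm_mul, RCLike.norm_conj]
    have : ‖cexp (2 * a * ((zz (r i)).im * I))‖ = 1 := by
      rw [Complex.norm_exp]
      simp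
    rw [this, mul_one]
  choose y hy1 hy2 using hph
  have hgex : ∀ i, PW (L / 2) (fun z => cexp (a * z) * Fm b N (r i) M z + y i * (cexp (-(a * z)) * Fm b N (r i) M z)) := by
    intro i
    have h1 := Fm_PW hb0 N (r i) M
    have h2 := PW.shift (b := a) (R := L / 2) h1 (by linarith) (by linarith)
    have h3 := PW.shift (b := -a) (R := L / 2) h1 (by linarith) (by linarith)
    have h4 := h2.add (PW.smul (y i) h3)
    convert h4 using 1
    funext z
    congr 3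
    push_cast
    ring_nf
  choose g hgT hgs hgL using hgex
  refine ⟨g, fun i => ⟨(hgT i).smooth, hgs i⟩, fun x => ?_⟩
  obtain ⟨gx, hgx⟩ : ∃ gx : ℝ → ℂ, gx = fun t => ∑ i, x i * g i t := ⟨_, rfl⟩
  rw [← hgx]
  have hTF : TF gx := by
    rw [hgx]
    refine tf_of_supp (r := L / 2) (ContDiff.sum fun j _ => contDiff_const.mul (hgT j).smooth) fun t ht => ?_
    exact Finset.sum_eq_zero fun j _ => by rw [hgs j t ht, mul_zero]
  have hLT : ∀ z, LT gx z = ∑ j, x j * (cexp (a * z) * Fm b N (r j) M z + y j * (cexp (-(a * z)) * Fm b N (r j) M z)) := by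
    intro z
    rw [hgx, LT_sum Finset.univ x (fun j _ => hgT j) z]
    exact Finset.sum_congr rfl fun j _ => by rw [hgL]
  have hsq : ∀ z, ‖LT gx z‖ ^ 2 ≤ 4 * Real.exp (2 * a * |z.re|) * k * ∑ j, ‖x j‖ ^ 2 * ‖Fm b N (r j) M z‖ ^ 2 := by
    intro z
    rw [hLT]
    exact comb_sq ha x y (fun j => Fm b N (r j) M z) hy1 z
  set Q : ℝ := ∑ i, ‖x i‖ ^ 2 with hQ
  have hQ0 : 0 ≤ Q := Finset.sum_nonneg fun i _ => by positivity
  constructor
  · -- the norm
    have hK : ∀ t, den gx t ≤ ∑ i, (4 * k * ‖x i‖ ^ 2) * den (f0 i) t := by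
      intro t
      have h1 := hsq (t * I)
      have h2 : ((t : ℂ) * I).re = 0 := by simp
      rw [h2, abs_zero, mul_zero, Real.exp_zero, mul_one] at h1
      unfold WB.den
      refine h1.trans ?_
      rw [Finset.mul_sum]
      refine Finset.sum_le_sum fun j _ => ?_
      have h3 : ‖Fm b N (r j) M (t * I)‖ ≤ ‖LT (f0 j) (t * I)‖ := by
        rw [hf0L]
        have h4 : ‖Sb b ((t : ℂ) * I - ((zz (r j)).im : ℝ) * I)‖ ≤ 1 := by
          have := Sb_crit hb0 (t - (zz (r j)).im)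
          convert this using 3
          push_cast
          ring
        have := Fm_le (N := N) (M := M) h4
        rwa [one_pow, one_mul] at this
      calc 4 * (k : ℝ) * (‖x j‖ ^ 2 * ‖Fm b N (r j) M (t * I)‖ ^ 2) ≤
            4 * (k : ℝ) * (‖x j‖ ^ 2 * ‖LT (f0 j) (t * I)‖ ^ 2) := by gcongr
        _ = _ := by ring
    refine (Ew_le_sum hw hTF hf0T hK).trans ?_
    have h5 : ∑ i, 4 * k * ‖x i‖ ^ 2 * Ew w (f0 i) ≤ ∑ i, 4 * k * ‖x i‖ ^ 2 * ∑ j, Ew w (f0 j) := by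
      refine Finset.sum_le_sum fun i _ => ?_
      refine mul_le_mul_of_nonneg_left ?_ (by positivity)
      exact Finset.single_le_sum (f := fun j => Ew w (f0 j)) (fun j _ => hE0 j) (Finset.mem_univ i)
    refine h5.trans (le_of_eq ?_)
    rw [hQ, Finset.mul_sum]
    refine Finset.sum_congr rfl fun i _ => ?_
    ring
  · -- the form
    set Bs : ℝ := ∑ i, B i with hBs
    have hBs0 : 0 ≤ Bs := Finset.sum_nonneg fun i _ => hB0 i
    have hfar1 : ∀ z : ℂ, |z.re| ≤ 1 / 2 → (∀ j, 6 / b ≤ |z.im - (zz (r j)).im|) →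
        (1 + ‖z‖ ^ 2) * ‖LT gx z‖ ^ 2 ≤ 4 * k * Q * Bs := by
      intro z hz1 hz2
      have h1 := hsq z
      have h2 : ∀ j, (1 + ‖z‖ ^ 2) * ‖Fm b N (r j) M z‖ ^ 2 ≤ Real.exp (-(2 * M)) * Bs := by
        intro j
        have h3 : ‖Sb b (z - ((zz (r j)).im : ℝ) * I)‖ ≤ Real.exp (-1) := by
          apply Sb_far hb0 (by linarith)
          · simpa using hz1
          · simpa using hz2 j
        have h4 := Fm_le (N := N) (M := M) h3
        have h5 := LT_H1 (hf0T j) (c := 1 / 4) (by norm_num) (hf0s' j) hz1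
        rw [hf0L] at h5
        have h6 : (Real.exp (-1) ^ M) ^ 2 = Real.exp (-(2 * M)) := by
          rw [← Real.exp_nat_mul, ← Real.exp_nat_mul]
          congr 1
          push_cast
          ring
        calc (1 + ‖z‖ ^ 2) * ‖Fm b N (r j) M z‖ ^ 2 ≤ (1 + ‖z‖ ^ 2) * (Real.exp (-1) ^ M * ‖Fm b N (r j) 0 z‖) ^ 2 := by
              gcongr
          _ = Real.exp (-(2 * M)) * ((1 + ‖z‖ ^ 2) * ‖Fm b N (r j) 0 z‖ ^ 2) := by
            rw [mul_pow, h6]
            ring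
          _ ≤ Real.exp (-(2 * M)) * B j := by gcongr
          _ ≤ Real.exp (-(2 * M)) * Bs := by
            gcongr
            exact Finset.single_le_sum (f := B) (fun j _ => hB0 j) (Finset.mem_univ j)
      have h7 : Real.exp (2 * a * |z.re|) * Real.exp (-(2 * M)) ≤ 1 := by
        rw [← Real.exp_add, Real.exp_le_one_iff]
        have : a * |z.re| ≤ a * (1 / 2) := mul_le_mul_of_nonneg_left hz1 ha
        have : (0 : ℝ) ≤ M := by positivity
        linarith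
      calc (1 + ‖z‖ ^ 2) * ‖LT gx z‖ ^ 2 ≤
            (1 + ‖z‖ ^ 2) * (4 * Real.exp (2 * a * |z.re|) * k * ∑ j, ‖x j‖ ^ 2 * ‖Fm b N (r j) M z‖ ^ 2) := by
            gcongr
        _ = 4 * Real.exp (2 * a * |z.re|) * k * ∑ j, ‖x j‖ ^ 2 * ((1 + ‖z‖ ^ 2) * ‖Fm b N (r j) M z‖ ^ 2) := by
          have : ∑ j, ‖x j‖ ^ 2 * ((1 + ‖z‖ ^ 2) * ‖Fm b N (r j) M z‖ ^ 2) =
              (1 + ‖z‖ ^ 2) * ∑ j, ‖x j‖ ^ 2 * ‖Fm b N (r j) M z‖ ^ 2 := by
            rw [Finset.mul_sum]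
            exact Finset.sum_congr rfl fun j _ => by ring
          rw [this]
          ring
        _ ≤ 4 * Real.exp (2 * a * |z.re|) * k * ∑ j, ‖x j‖ ^ 2 * (Real.exp (-(2 * M)) * Bs) := by
          exact mul_le_mul_of_nonneg_left (Finset.sum_le_sum fun j _ =>
            mul_le_mul_of_nonneg_left (h2 j) (by positivity)) (by positivity)
        _ = (4 * k * Q * Bs) * (Real.exp (2 * a * |z.re|) * Real.exp (-(2 * M))) := by
          rw [← Finset.sum_mul, ← hQ]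
          ring
        _ ≤ (4 * k * Q * Bs) * 1 := by
          apply mul_le_mul_of_nonneg_left h7
          positivity
        _ = _ := mul_one _
    -- far zeros
    have hfar : ∀ ρ : Zr, ρ ∉ N → ‖wt gx ρ‖ ≤ 8 * k * Bs * Q * (mm ρ / (1 + |(zz ρ).im|) ^ (2 : ℝ)) := by
      intro ρ hρ
      have hm : 0 ≤ mm ρ := cfg_zeta.m_nonneg ρ
      have hd : ∀ j, 6 / b ≤ |(zz ρ).im - (zz (r j)).im| := by
        intro j
        rw [hN] at hρ
        push Not at hρ
        have h1 := hle j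
        have h2 := abs_sub_abs_le_abs_sub (zz ρ).im (zz (r j)).im
        linarith
      have h1 := hfar1 (zz ρ) (zz_re_abs ρ) hd
      have h2 := hfar1 (-conj (zz ρ)) (by simpa using zz_re_abs ρ) (by simpa using hd)
      rw [norm_neg, RCLike.norm_conj] at h2
      rw [wt_norm']
      have h3 : (1 + |(zz ρ).im|) ^ 2 ≤ 2 * (1 + ‖zz ρ‖ ^ 2) := by
        have h4 : |(zz ρ).im| ≤ ‖zz ρ‖ := Complex.abs_im_le_norm _
        have h5 := abs_nonneg (zz ρ).im
        nlinarith [sq_nonneg (1 - ‖zz ρ‖)]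
      have h6 : (1 + ‖zz ρ‖ ^ 2) * (‖LT gx (zz ρ)‖ * ‖LT gx (-conj (zz ρ))‖) ≤ 4 * k * Q * Bs := by
        have h7 : 0 ≤ (1 + ‖zz ρ‖ ^ 2) := by positivity
        nlinarith [mul_nonneg h7 (sq_nonneg (‖LT gx (zz ρ)‖ - ‖LT gx (-conj (zz ρ))‖))]
      have h8 : 0 ≤ ‖LT gx (zz ρ)‖ * ‖LT gx (-conj (zz ρ))‖ := by positivity
      have h9 : ‖LT gx (zz ρ)‖ * ‖LT gx (-conj (zz ρ))‖ ≤ 8 * k * Bs * Q / (1 + |(zz ρ).im|) ^ 2 := by
        rw [le_div_iff₀ (by positivity)]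
        calc ‖LT gx (zz ρ)‖ * ‖LT gx (-conj (zz ρ))‖ * (1 + |(zz ρ).im|) ^ 2 ≤
              ‖LT gx (zz ρ)‖ * ‖LT gx (-conj (zz ρ))‖ * (2 * (1 + ‖zz ρ‖ ^ 2)) := by gcongr
          _ = 2 * ((1 + ‖zz ρ‖ ^ 2) * (‖LT gx (zz ρ)‖ * ‖LT gx (-conj (zz ρ))‖)) := by ring
          _ ≤ 2 * (4 * k * Q * Bs) := by linarith
          _ = _ := by ring
      have e5 : (1 + |(zz ρ).im|) ^ (2 : ℝ) = (1 + |(zz ρ).im|) ^ 2 := by norm_cast
      rw [e5]
      calc mm ρ * (‖LT gx (zz ρ)‖ * ‖LT gx (-conj (zz ρ))‖) ≤ mm ρ * (8 * k * Bs * Q / (1 + |(zz ρ).im|) ^ 2) := by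
            gcongr
        _ = _ := by ring
    -- the zeros of the family
    have hown : ∀ i, (wt gx (r i)).re ≤
        ‖x i‖ ^ 2 * (cst b N (r i) * (3 - Real.exp (((1 - 2 * b) * L - 1) * (zz (r i)).re))) := by
      intro i
      have z1 : LT gx (zz (r i)) = x i * (cexp (a * zz (r i)) * Fm b N (r i) M (zz (r i)) +
          y i * (cexp (-(a * zz (r i))) * Fm b N (r i) M (zz (r i)))) := by
        rw [hLT, Finset.sum_eq_single i]
        · intro j _ hj
          rw [Fm_zero (hrN i) (fun h => hj (hinj h).symm) (hne i j)]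
          ring
        · intro h
          exact absurd (Finset.mem_univ i) h
      have z2 : LT gx (-conj (zz (r i))) = x i * (cexp (a * (-conj (zz (r i)))) * Fm b N (r i) M (-conj (zz (r i))) +
          y i * (cexp (-(a * (-conj (zz (r i))))) * Fm b N (r i) M (-conj (zz (r i))))) := by
        rw [hLT, Finset.sum_eq_single i]
        · intro j _ hj
          have : Fm b N (r j) M (-conj (zz (r i))) = 0 := by
            rw [← zz_refl]
            exact Fm_zero (hrN' i) (fun h => hne j i h.symm) (fun h => hj (hinj (reflE.injective h)).symm)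
          rw [this]
          ring
        · intro h
          exact absurd (Finset.mem_univ i) h
      rw [wt_LT, z1, z2, Complex.re_ofReal_mul]
      have h1 := pair_term ha (x := x i) (hpos i).le (hy1 i) (hy2 i)
      have h4 : 3 - Real.exp (2 * a * (zz (r i)).re) ≤ 3 - Real.exp (((1 - 2 * b) * L - 1) * (zz (r i)).re) := by
        have : Real.exp (((1 - 2 * b) * L - 1) * (zz (r i)).re) ≤ Real.exp (2 * a * (zz (r i)).re) := by
          rw [Real.exp_le_exp]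
          exact mul_le_mul_of_nonneg_right ha2 (hpos i).le
        linarith
      have h5 : 3 - Real.exp (((1 - 2 * b) * L - 1) * (zz (r i)).re) ≤ 0 := by
        have := h3 i
        linarith
      have h6 := cst_le hb0 N (r i) M
      have h7 : (‖Fm b N (r i) M (zz (r i))‖ * ‖Fm b N (r i) M (-conj (zz (r i)))‖) *
          (3 - Real.exp (2 * a * (zz (r i)).re)) ≤
          cst b N (r i) * (3 - Real.exp (((1 - 2 * b) * L - 1) * (zz (r i)).re)) := by
        calc (‖Fm b N (r i) M (zz (r i))‖ * ‖Fm b N (r i) M (-conj (zz (r i)))‖) *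
              (3 - Real.exp (2 * a * (zz (r i)).re)) ≤
              (‖Fm b N (r i) M (zz (r i))‖ * ‖Fm b N (r i) M (-conj (zz (r i)))‖) *
              (3 - Real.exp (((1 - 2 * b) * L - 1) * (zz (r i)).re)) := by gcongr
          _ ≤ _ := mul_le_mul_of_nonpos_right h6 h5
      have h8 : ‖x i‖ ^ 2 * ((‖Fm b N (r i) M (zz (r i))‖ * ‖Fm b N (r i) M (-conj (zz (r i)))‖) *
          (3 - Real.exp (2 * a * (zz (r i)).re))) ≤
          ‖x i‖ ^ 2 * (cst b N (r i) * (3 - Real.exp (((1 - 2 * b) * L - 1) * (zz (r i)).re))) := by gcongr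
      have h9 : ‖x i‖ ^ 2 * (cst b N (r i) * (3 - Real.exp (((1 - 2 * b) * L - 1) * (zz (r i)).re))) ≤ 0 :=
        mul_nonpos_of_nonneg_of_nonpos (by positivity) (mul_nonpos_of_nonneg_of_nonpos (cst_pos _ _ _).le h5)
      have h10 := h1.trans h8
      have h11 := mm_one_le (r i)
      have h12 := h10.trans h9
      refine le_trans ?_ h10
      nlinarith
    have hneg : ∀ i, ‖x i‖ ^ 2 * (cst b N (r i) * (3 - Real.exp (((1 - 2 * b) * L - 1) * (zz (r i)).re))) ≤ 0 := by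
      intro i
      have := h3 i
      exact mul_nonpos_of_nonneg_of_nonpos (by positivity)
        (mul_nonpos_of_nonneg_of_nonpos (cst_pos _ _ _).le (by linarith))
    -- all zeros
    set D : Zr → ℝ := fun ρ => ∑ i, if ρ = r i then
      ‖x i‖ ^ 2 * (cst b N (r i) * (3 - Real.exp (((1 - 2 * b) * L - 1) * (zz (r i)).re))) else 0 with hD
    have hDsum : HasSum D (∑ i, ‖x i‖ ^ 2 * (cst b N (r i) * (3 - Real.exp (((1 - 2 * b) * L - 1) * (zz (r i)).re)))) := by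
      refine hasSum_sum fun i _ => ?_
      exact hasSum_ite_eq (r i) _
    have hDr : ∀ i, D (r i) = ‖x i‖ ^ 2 * (cst b N (r i) * (3 - Real.exp (((1 - 2 * b) * L - 1) * (zz (r i)).re))) := by
      intro i
      rw [hD]
      simp only
      rw [Finset.sum_eq_single i]
      · rw [if_pos rfl]
      · intro j _ hj
        rw [if_neg fun h => hj (hinj h).symm]
      · intro h
        exact absurd (Finset.mem_univ i) h
    have hDn : ∀ ρ, (∀ i, ρ ≠ r i) → D ρ = 0 := by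
      intro ρ hρ
      exact Finset.sum_eq_zero fun i _ => if_neg (hρ i)
    have hkey : ∀ ρ : Zr, (wt gx ρ).re ≤ D ρ + 8 * k * Bs * Q * (mm ρ / (1 + |(zz ρ).im|) ^ (2 : ℝ)) := by
      intro ρ
      have hm : 0 ≤ mm ρ := cfg_zeta.m_nonneg ρ
      have hp : 0 ≤ 8 * k * Bs * Q * (mm ρ / (1 + |(zz ρ).im|) ^ (2 : ℝ)) := by positivity
      by_cases h1 : ∃ i, ρ = r i
      · obtain ⟨i, rfl⟩ := h1
        rw [hDr]
        have := hown i
        linarith
      push Not at h1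
      rw [hDn ρ h1, zero_add]
      by_cases h2 : ∃ i, ρ = reflE (r i)
      · obtain ⟨i, rfl⟩ := h2
        rw [wt_refl_re]
        exact ((hown i).trans (hneg i)).trans hp
      push Not at h2
      by_cases h3 : ρ ∈ N
      · have h4 : LT gx (zz ρ) = 0 := by
          rw [hLT]
          refine Finset.sum_eq_zero fun j _ => ?_
          rw [Fm_zero h3 (h1 j) (h2 j)]
          ring
        rw [wt_LT, h4, zero_mul, mul_zero, Complex.zero_re]
        exact hp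
      · exact ((Complex.re_le_norm _).trans (hfar ρ h3))
    have S1 := Complex.reCLM.summable (wt_summable hTF)
    have S2 := (cfg_zeta.sum 2 (by norm_num)).mul_left (8 * k * Bs * Q)
    have r1 : (Wf gx).re = ∑' ρ : Zr, (wt gx ρ).re := Complex.reCLM.map_tsum (wt_summable hTF)
    rw [r1]
    have h6 := S1.tsum_le_tsum hkey (hDsum.summable.add S2)
    refine h6.trans (le_of_eq ?_)
    rw [hDsum.summable.tsum_add S2, hDsum.tsum_eq, tsum_mul_left]
    simp_rw [mul_add]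
    rw [Finset.sum_add_distrib, ← Finset.sum_mul, ← hQ]
    unfold Zp
    ring

end Pool.Agent.Helper42.MI
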