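import Pool.Agent.Helper42.MI.Def

set_option autoImplicit false

/-!
# The level sets of Weil's form: upper bound for the index
-/

namespace Pool.Agent.Helper42.MI

open Complex Filter Topology Set MeasureTheory
open scoped ComplexConjugate ContDiff
open Pool.Agent.Helper61.W
open Pool.Agent.Helper42.WB (en en_eq_sq en_eq en_nonneg)
open Pool.Agent.V11271.LI (Zr mm cfg_zeta zz reflE zz_im)

variable {g : ℝ → ℂ}

/-- the square of the Sobolev norm -/
noncomputable def E1 (g : ℝ → ℂ) : ℝ := (∫ x : ℝ, ‖g x‖ ^ 2) + ∫ x : ℝ, ‖deriv g x‖ ^ 2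

lemma E1_eq (g : ℝ → ℂ) : E1 g = en g + en (deriv g) := by
  unfold E1
  rw [en_eq_sq, en_eq_sq]

lemma E1_nonneg (g : ℝ → ℂ) : 0 ≤ E1 g := by
  rw [E1_eq]
  exact add_nonneg (en_nonneg _) (en_nonneg _)

/-- the Laplace transform of a function with small support -/
lemma LT_sq_le' (h : TF g) {c β : ℝ} (hc : 0 < c) (hs : ∀ x, x ∉ Icc (-c) c → g x = 0) {z : ℂ}
    (hz : |z.re| ≤ β) : ‖LT g z‖ ^ 2 ≤ 2 * c * Real.exp (2 * β * c) * en g := by
  have hcont := h.cont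
  have h2int : Integrable (fun x => ‖g x‖ ^ 2) :=
    Continuous.integrable_of_hasCompactSupport (by fun_prop) (by
      have := h.supp.norm
      exact this.comp_left (g := fun y : ℝ => y ^ 2) (by simp))
  have h1int : Integrable (fun x => ‖g x‖) :=
    Continuous.integrable_of_hasCompactSupport (by fun_prop) h.supp.norm
  have hfin : volume.real (Icc (-c) c) = 2 * c := by
    rw [Real.volume_real_Icc_of_le (by linarith)]
    ring
  have e1 : ∫ x, ‖g x‖ = ∫ x in Icc (-c) c, ‖g x‖ := by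
    rw [setIntegral_eq_integral_of_forall_compl_eq_zero]
    intro x hx
    rw [hs x hx, norm_zero]
  have e2 : ∫ x, ‖g x‖ ^ 2 = ∫ x in Icc (-c) c, ‖g x‖ ^ 2 := by
    rw [setIntegral_eq_integral_of_forall_compl_eq_zero]
    intro x hx
    rw [hs x hx, norm_zero]
    norm_num
  have hI : ‖LT g z‖ ≤ Real.exp (β * c) * ∫ x, ‖g x‖ := by
    unfold Helper61.W.LT
    rw [← integral_const_mul]
    refine norm_integral_le_of_norm_le (h1int.const_mul _) (Eventually.of_forall fun x => ?_)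
    by_cases hx : x ∈ Icc (-c) c
    · rw [norm_mul, mul_comm, Complex.norm_exp]
      gcongr
      have e3 : (z * x).re = z.re * x := by simp
      rw [e3]
      have h3 : |x| ≤ c := abs_le.mpr hx
      calc z.re * x ≤ |z.re * x| := le_abs_self _
        _ = |z.re| * |x| := abs_mul _ _
        _ ≤ β * c := mul_le_mul hz h3 (abs_nonneg _) ((abs_nonneg _).trans hz)
    · rw [hs x hx]
      simp
  set J := ∫ x, ‖g x‖ with hJ
  have hcs : J ^ 2 ≤ 2 * c * en g := by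
    have h4 : 0 ≤ ∫ x in Icc (-c) c, (‖g x‖ - J / (2 * c)) ^ 2 := integral_nonneg fun x => sq_nonneg _
    have e4 : ∫ x in Icc (-c) c, (‖g x‖ - J / (2 * c)) ^ 2 =
        (∫ x in Icc (-c) c, ‖g x‖ ^ 2) - 2 * (J / (2 * c)) * (∫ x in Icc (-c) c, ‖g x‖) +
          (J / (2 * c)) ^ 2 * (2 * c) := by
      have e5 : ∀ x, (‖g x‖ - J / (2 * c)) ^ 2 = (‖g x‖ ^ 2 - 2 * (J / (2 * c)) * ‖g x‖) + (J / (2 * c)) ^ 2 :=
        fun x => by ring
      rw [integral_congr_ae (Eventually.of_forall e5)]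
      have i1 : IntegrableOn (fun x => ‖g x‖ ^ 2) (Icc (-c) c) := h2int.integrableOn
      have i2 : IntegrableOn (fun x => 2 * (J / (2 * c)) * ‖g x‖) (Icc (-c) c) := (h1int.const_mul _).integrableOn
      have i3 : IntegrableOn (fun _ : ℝ => (J / (2 * c)) ^ 2) (Icc (-c) c) :=
        integrableOn_const (by rw [Real.volume_Icc]; exact ENNReal.ofReal_ne_top)
      have i12 : IntegrableOn (fun x => ‖g x‖ ^ 2 - 2 * (J / (2 * c)) * ‖g x‖) (Icc (-c) c) := i1.sub i2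
      rw [integral_add i12 i3, integral_sub i1 i2, integral_const_mul, setIntegral_const, hfin,
        smul_eq_mul]
      ring
    rw [e4, ← e1, ← e2, ← en_eq_sq] at h4
    have e6 : en g - 2 * (J / (2 * c)) * J + (J / (2 * c)) ^ 2 * (2 * c) = en g - J ^ 2 / (2 * c) := by
      field_simp
      ring
    rw [e6, sub_nonneg, div_le_iff₀ (by positivity)] at h4
    linarith
  have hJ0 : 0 ≤ J := integral_nonneg fun x => norm_nonneg _
  have e7 : Real.exp (β * c) ^ 2 = Real.exp (2 * β * c) := by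
    rw [← Real.exp_nat_mul]
    congr 1
    push_cast
    ring
  calc ‖LT g z‖ ^ 2 ≤ (Real.exp (β * c) * J) ^ 2 := by gcongr
    _ = Real.exp (2 * β * c) * J ^ 2 := by rw [mul_pow, e7]
    _ ≤ Real.exp (2 * β * c) * (2 * c * en g) := by gcongr
    _ = _ := by ring

lemma deriv_supp {c : ℝ} (hs : ∀ x, x ∉ Icc (-c) c → g x = 0) {x : ℝ} (hx : x ∉ Icc (-c) c) :
    deriv g x = 0 := by
  have h1 : g =ᶠ[𝓝 x] fun _ => (0 : ℂ) := by
    have h2 : (Icc (-c) c)ᶜ ∈ 𝓝 x := isClosed_Icc.isOpen_compl.mem_nhds hx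
    filter_upwards [h2] with y hy
    exact hs y hy
  rw [h1.deriv_eq]
  simp

/-- the same with decay -/
lemma LT_H1 (h : TF g) {c β : ℝ} (hc : 0 < c) (hs : ∀ x, x ∉ Icc (-c) c → g x = 0) {z : ℂ}
    (hz : |z.re| ≤ β) : (1 + ‖z‖ ^ 2) * ‖LT g z‖ ^ 2 ≤ 2 * c * Real.exp (2 * β * c) * E1 g := by
  have h1 := LT_sq_le' h hc hs hz
  have h2 := LT_sq_le' h.deriv hc (fun x hx => deriv_supp hs hx) hz
  rw [LT_deriv h, norm_mul, norm_neg, mul_pow] at h2
  rw [E1_eq]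
  linarith

/-- the products of the transforms at a symmetric pair of points -/
lemma pair_le (h : TF g) {c β : ℝ} (hc : 0 < c) (hs : ∀ x, x ∉ Icc (-c) c → g x = 0) {z : ℂ}
    (hz : |z.re| ≤ β) : ‖LT g z‖ * ‖LT g (-conj z)‖ ≤
      2 * (2 * c * Real.exp (2 * β * c) * E1 g) / (1 + |z.im|) ^ 2 := by
  have h1 := LT_H1 h hc hs hz
  have h2 := LT_H1 h (z := -conj z) hc hs (by simpa using hz)
  rw [norm_neg, RCLike.norm_conj] at h2
  set B := 2 * c * Real.exp (2 * β * c) * E1 g with hB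
  rw [le_div_iff₀ (by positivity)]
  have h3 : (1 + |z.im|) ^ 2 ≤ 2 * (1 + ‖z‖ ^ 2) := by
    have h4 : |z.im| ≤ ‖z‖ := Complex.abs_im_le_norm z
    have h5 := abs_nonneg z.im
    nlinarith [sq_nonneg (1 - ‖z‖)]
  have h6 : (1 + ‖z‖ ^ 2) * (‖LT g z‖ * ‖LT g (-conj z)‖) ≤ B := by
    have h7 : 0 ≤ (1 + ‖z‖ ^ 2) := by positivity
    nlinarith [mul_nonneg h7 (sq_nonneg (‖LT g z‖ - ‖LT g (-conj z)‖))]
  have h8 : 0 ≤ ‖LT g z‖ * ‖LT g (-conj z)‖ := by positivity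
  calc ‖LT g z‖ * ‖LT g (-conj z)‖ * (1 + |z.im|) ^ 2 ≤ ‖LT g z‖ * ‖LT g (-conj z)‖ * (2 * (1 + ‖z‖ ^ 2)) := by
        gcongr
    _ = 2 * ((1 + ‖z‖ ^ 2) * (‖LT g z‖ * ‖LT g (-conj z)‖)) := by ring
    _ ≤ 2 * B := by linarith

/-- the zeros that can contribute to level `κ` -/
def seen (X σ : ℝ) : Set Zr := {ρ : Zr | 1 / 2 < (ρ : ℂ).re ∧ σ < (ρ : ℂ).re ∧ |(ρ : ℂ).im| ≤ X}

lemma seen_finite (X σ : ℝ) : (seen X σ).Finite := by
  rcases le_or_gt 0 X with hH | hH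
  · refine (finite_zeta X hH).subset fun ρ hρ => ?_
    show |(zz ρ).im| ≤ X
    rw [zz_im]
    exact hρ.2.2
  · have : seen X σ = ∅ := by
      rw [Set.eq_empty_iff_forall_notMem]
      intro ρ hρ
      have := abs_nonneg (ρ : ℂ).im
      have := hρ.2.2
      linarith
    rw [this]
    exact Set.finite_empty

noncomputable def Zp (p : ℝ) : ℝ := ∑' ρ : Zr, mm ρ / (1 + |(zz ρ).im|) ^ p

lemma Zp_nonneg (p : ℝ) : 0 ≤ Zp p := tsum_nonneg fun ρ => by
  have := cfg_zeta.m_nonneg ρ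
  positivity

lemma wt_norm (h : TF g) (ρ : Zr) : ‖wt g ρ‖ = mm ρ * (‖LT g ((ρ : ℂ) - 1 / 2)‖ * ‖LT g (-conj ((ρ : ℂ) - 1 / 2))‖) := by
  have hm : 0 ≤ mm ρ := cfg_zeta.m_nonneg ρ
  rw [MI.wt_eq h]
  unfold tm
  rw [LT_corr h, norm_mul, norm_mul, RCLike.norm_conj, Complex.norm_real, Real.norm_of_nonneg hm]

lemma wt_line (h : TF g) (ρ : Zr) (hl : (ρ : ℂ).re = 1 / 2) : 0 ≤ (wt g ρ).re := by
  have hm : 0 ≤ mm ρ := cfg_zeta.m_nonneg ρ
  have hu : (ρ : ℂ) - 1 / 2 = (((ρ : ℂ).im : ℝ) : ℂ) * I := by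
    apply Complex.ext
    · simp [hl]
    · simp
  have e1 : wt g ρ = ((mm ρ * WB.den g (ρ : ℂ).im : ℝ) : ℂ) := by
    rw [MI.wt_eq h]
    unfold tm
    rw [hu]
    have := WB.den_eq h (ρ : ℂ).im
    rw [Complex.ofReal_zero, zero_add] at this
    rw [this]
    push_cast
    rfl
  rw [e1, Complex.ofReal_re]
  exact mul_nonneg hm (WB.den_nonneg _ _)

lemma negconj (ρ : Zr) : -conj ((ρ : ℂ) - 1 / 2) = ((reflE ρ : Zr) : ℂ) - 1 / 2 := by
  have h1 : ((reflE ρ : Zr) : ℂ) = 1 - conj (ρ : ℂ) := rfl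
  have : conj (1 / 2 : ℂ) = 1 / 2 := by
    have : (1 / 2 : ℂ) = ((1 / 2 : ℝ) : ℂ) := by push_cast; rfl
    rw [this, Complex.conj_ofReal]
  rw [h1, map_sub, this]
  ring

/-- lower bound of the form when the transform vanishes at the zeros to the right of `1/2 + β` -/
theorem form_ge {X : ℝ} (hX : 1 < X) {β : ℝ} (hg : Tst X g)
    (hz : ∀ ρ ∈ seen X (1 / 2 + β), TT g (ρ : ℂ) = 0) :
    -(E1 g * (2 * Real.log X * (X ^ β * Zp 2 + X ^ (-(1 / 4) : ℝ) * Zp (5 / 4)))) ≤ (Wf g).re := by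
  have hX0 : 0 < X := by linarith
  have hL : 0 < Real.log X := Real.log_pos hX
  have h := hg.tf
  have hE := E1_nonneg g
  have hc : 0 < Real.log X / 2 := by linarith
  -- the two bounds
  have hb : ∀ b : ℝ, 2 * (Real.log X / 2) * Real.exp (2 * b * (Real.log X / 2)) = Real.log X * X ^ b := by
    intro b
    rw [Real.rpow_def_of_pos hX0]
    ring_nf
  have S2 := (cfg_zeta.sum 2 (by norm_num)).mul_left (2 * Real.log X * X ^ β * E1 g)
  have S5 := (cfg_zeta.sum (5 / 4) (by norm_num)).mul_left (2 * Real.log X * X ^ (-(1 / 4) : ℝ) * E1 g)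
  have key : ∀ ρ : Zr, -(2 * Real.log X * X ^ β * E1 g * (mm ρ / (1 + |(zz ρ).im|) ^ (2 : ℝ)) +
      2 * Real.log X * X ^ (-(1 / 4) : ℝ) * E1 g * (mm ρ / (1 + |(zz ρ).im|) ^ (5 / 4 : ℝ))) ≤ (wt g ρ).re := by
    intro ρ
    have hm : 0 ≤ mm ρ := cfg_zeta.m_nonneg ρ
    have n1 : 0 ≤ 2 * Real.log X * X ^ β * E1 g * (mm ρ / (1 + |(zz ρ).im|) ^ (2 : ℝ)) := by positivity
    have n2 : 0 ≤ 2 * Real.log X * X ^ (-(1 / 4) : ℝ) * E1 g * (mm ρ / (1 + |(zz ρ).im|) ^ (5 / 4 : ℝ)) := by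
      positivity
    have e2 : (zz ρ).im = (ρ : ℂ).im := zz_im ρ
    have him : ((ρ : ℂ) - 1 / 2).im = (ρ : ℂ).im := by simp
    have hre : ((ρ : ℂ) - 1 / 2).re = (ρ : ℂ).re - 1 / 2 := by simp
    by_cases hl : (ρ : ℂ).re = 1 / 2
    · have := wt_line h ρ hl
      linarith
    have hlow : -‖wt g ρ‖ ≤ (wt g ρ).re := (abs_le.mp (Complex.abs_re_le_norm _)).1
    by_cases hh : |(ρ : ℂ).im| ≤ X
    · by_cases hzero : wt g ρ = 0
      · rw [hzero, Complex.zero_re]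
        linarith
      have hβ : |((ρ : ℂ) - 1 / 2).re| ≤ β := by
        by_contra hlt
        push Not at hlt
        apply hzero
        rw [← norm_eq_zero, wt_norm h]
        rcases lt_or_gt_of_ne hl with h1 | h1
        · have h2 := hz (reflE ρ) ⟨by
            show 1 / 2 < (1 - conj (ρ : ℂ)).re
            simp only [Complex.sub_re, Complex.one_re, Complex.conj_re]
            linarith, by
            show 1 / 2 + β < (1 - conj (ρ : ℂ)).re
            simp only [Complex.sub_re, Complex.one_re, Complex.conj_re]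
            rw [hre, abs_of_neg (by linarith)] at hlt
            linarith, by
            show |(1 - conj (ρ : ℂ)).im| ≤ _
            simpa using hh⟩
          rw [TT_eq] at h2
          rw [negconj, h2]
          simp
        · have h2 := hz ρ ⟨h1, by
            rw [hre, abs_of_pos (by linarith)] at hlt
            linarith, hh⟩
          rw [TT_eq] at h2
          rw [h2]
          simp
      have h3 := pair_le h hc hg.2 hβ
      rw [hb, him] at h3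
      have h4 : ‖wt g ρ‖ ≤ 2 * Real.log X * X ^ β * E1 g * (mm ρ / (1 + |(zz ρ).im|) ^ (2 : ℝ)) := by
        rw [wt_norm h, e2]
        have e5 : (1 + |(ρ : ℂ).im|) ^ (2 : ℝ) = (1 + |(ρ : ℂ).im|) ^ 2 := by norm_cast
        rw [e5]
        calc mm ρ * (‖LT g ((ρ : ℂ) - 1 / 2)‖ * ‖LT g (-conj ((ρ : ℂ) - 1 / 2))‖) ≤
              mm ρ * (2 * (Real.log X * X ^ β * E1 g) / (1 + |(ρ : ℂ).im|) ^ 2) := by gcongr
          _ = _ := by ring
      linarith
    · push Not at hh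
      have h12 : |((ρ : ℂ) - 1 / 2).re| ≤ 1 / 2 := by
        rw [hre, abs_le]
        have := ρ.2.2.1
        have := ρ.2.2.2
        constructor <;> linarith
      have h3 := pair_le h hc hg.2 h12
      rw [hb, him] at h3
      have hy : 0 < 1 + |(ρ : ℂ).im| := by positivity
      have h4 : ‖wt g ρ‖ ≤ 2 * Real.log X * X ^ (-(1 / 4) : ℝ) * E1 g * (mm ρ / (1 + |(zz ρ).im|) ^ (5 / 4 : ℝ)) := by
        rw [wt_norm h, e2]
        have e6 : X ^ (1 / 2 : ℝ) / (1 + |(ρ : ℂ).im|) ^ 2 ≤ X ^ (-(1 / 4) : ℝ) / (1 + |(ρ : ℂ).im|) ^ (5 / 4 : ℝ) := by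
          rw [div_le_div_iff₀ (by positivity) (by positivity)]
          have e7 : (1 + |(ρ : ℂ).im|) ^ 2 = (1 + |(ρ : ℂ).im|) ^ (5 / 4 : ℝ) * (1 + |(ρ : ℂ).im|) ^ (3 / 4 : ℝ) := by
            rw [← Real.rpow_add hy]
            norm_num
          have e8 : X ^ (1 / 2 : ℝ) = X ^ (-(1 / 4) : ℝ) * X ^ (3 / 4 : ℝ) := by
            rw [← Real.rpow_add hX0]
            norm_num
          rw [e7, e8]
          have e9 : X ^ (3 / 4 : ℝ) ≤ (1 + |(ρ : ℂ).im|) ^ (3 / 4 : ℝ) :=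
            Real.rpow_le_rpow hX0.le (by linarith) (by norm_num)
          calc X ^ (-(1 / 4) : ℝ) * X ^ (3 / 4 : ℝ) * (1 + |(ρ : ℂ).im|) ^ (5 / 4 : ℝ) ≤
                X ^ (-(1 / 4) : ℝ) * (1 + |(ρ : ℂ).im|) ^ (3 / 4 : ℝ) * (1 + |(ρ : ℂ).im|) ^ (5 / 4 : ℝ) := by gcongr
            _ = _ := by ring
        calc mm ρ * (‖LT g ((ρ : ℂ) - 1 / 2)‖ * ‖LT g (-conj ((ρ : ℂ) - 1 / 2))‖) ≤
              mm ρ * (2 * (Real.log X * X ^ (1 / 2 : ℝ) * E1 g) / (1 + |(ρ : ℂ).im|) ^ 2) := by gcongr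
          _ = (2 * Real.log X * E1 g * mm ρ) * (X ^ (1 / 2 : ℝ) / (1 + |(ρ : ℂ).im|) ^ 2) := by ring
          _ ≤ (2 * Real.log X * E1 g * mm ρ) * (X ^ (-(1 / 4) : ℝ) / (1 + |(ρ : ℂ).im|) ^ (5 / 4 : ℝ)) := by gcongr
          _ = _ := by ring
      linarith
  have S1 := wt_summable h
  have S1r := Complex.reCLM.summable S1
  have r1 : (Wf g).re = ∑' ρ : Zr, (wt g ρ).re := Complex.reCLM.map_tsum S1
  rw [r1]
  have h6 := (S2.add S5).neg.tsum_le_tsum key S1r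
  refine le_trans (le_of_eq ?_) h6
  rw [tsum_neg, S2.tsum_add S5, tsum_mul_left, tsum_mul_left]
  unfold Zp
  ring

/-- the level of a subspace -/
def Bel (X κ : ℝ) (k : ℕ) : Prop :=
  ∃ h : Fin k → ℝ → ℂ, (∀ j, Tst X (h j)) ∧
    ∀ a : Fin k → ℂ, a ≠ 0 → (Wf fun x => ∑ j, a j * h j x).re < -(X ^ κ * E1 fun x => ∑ j, a j * h j x)

/-- uniform thresholds -/
lemma small_eventually (ε : ℝ) (hε : 0 < ε) : ∃ X0 : ℝ, 1 < X0 ∧ ∀ X : ℝ, X0 ≤ X →
    2 * Real.log X * (X ^ (-ε) * Zp 2 + X ^ (-(1 / 4) : ℝ) * Zp (5 / 4)) ≤ 1 := by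
  have h1 : Tendsto (fun X : ℝ => 2 * Real.log X * (X ^ (-ε) * Zp 2 + X ^ (-(1 / 4) : ℝ) * Zp (5 / 4))) atTop (𝓝 0) := by
    have l1 : ∀ e : ℝ, 0 < e → Tendsto (fun X : ℝ => Real.log X * X ^ (-e)) atTop (𝓝 0) := by
      intro e he
      have h2 : Tendsto (fun X : ℝ => Real.log X / X ^ e) atTop (𝓝 0) := (isLittleO_log_rpow_atTop he).tendsto_div_nhds_zero
      refine h2.congr' ?_
      filter_upwards [eventually_gt_atTop 0] with X hX
      rw [Real.rpow_neg hX.le]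
      rfl
    have h3 := ((l1 ε hε).const_mul (2 * Zp 2)).add ((l1 (1 / 4) (by norm_num)).const_mul (2 * Zp (5 / 4)))
    rw [mul_zero, mul_zero, add_zero] at h3
    refine h3.congr fun X => ?_
    ring
  obtain ⟨X0, hX0⟩ := eventually_atTop.mp (h1.eventually_le_const (show (0 : ℝ) < 1 by norm_num))
  exact ⟨max X0 2, by have := le_max_right X0 2; linarith, fun X hX => hX0 X ((le_max_left _ _).trans hX)⟩

/-- **Upper bound of the index.** -/
theorem upper (ε : ℝ) (hε : 0 < ε) : ∃ X0 : ℝ, 1 < X0 ∧ ∀ X : ℝ, X0 ≤ X → ∀ κ : ℝ, 0 ≤ κ →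
    (∀ g : ℝ → ℂ, Tst X g → (∀ ρ ∈ seen X (1 / 2 + κ - ε), TT g (ρ : ℂ) = 0) → -(X ^ κ * E1 g) ≤ (Wf g).re) ∧
    ∀ k : ℕ, Bel X κ k → k ≤ (seen X (1 / 2 + κ - ε)).ncard := by
  classical
  obtain ⟨X0, hX0, hsmall⟩ := small_eventually ε hε
  refine ⟨X0, hX0, fun X hX κ hκ => ?_⟩
  have hX1 : 1 < X := by linarith
  have hXp : 0 < X := by linarith
  have A : ∀ g : ℝ → ℂ, Tst X g → (∀ ρ ∈ seen X (1 / 2 + κ - ε), TT g (ρ : ℂ) = 0) →
      -(X ^ κ * E1 g) ≤ (Wf g).re := by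
    intro g hg hz
    have h1 := form_ge hX1 (β := κ - ε) hg (by
      rw [show (1 / 2 : ℝ) + (κ - ε) = 1 / 2 + κ - ε by ring]
      exact hz)
    refine le_trans ?_ h1
    have hE := E1_nonneg g
    have h2 : 2 * Real.log X * (X ^ (κ - ε) * Zp 2 + X ^ (-(1 / 4) : ℝ) * Zp (5 / 4)) ≤ X ^ κ := by
      have h3 := hsmall X hX
      have hk1 : 1 ≤ X ^ κ := Real.one_le_rpow hX1.le hκ
      have hL := Real.log_pos hX1
      have z1 := Zp_nonneg 2
      have z2 := Zp_nonneg (5 / 4)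
      have e1 : X ^ (κ - ε) = X ^ κ * X ^ (-ε) := by
        rw [← Real.rpow_add hXp]
        ring_nf
      rw [e1]
      have h4 : X ^ (-(1 / 4) : ℝ) * Zp (5 / 4) ≤ X ^ κ * (X ^ (-(1 / 4) : ℝ) * Zp (5 / 4)) :=
        le_mul_of_one_le_left (by positivity) hk1
      calc 2 * Real.log X * (X ^ κ * X ^ (-ε) * Zp 2 + X ^ (-(1 / 4) : ℝ) * Zp (5 / 4)) ≤
            2 * Real.log X * (X ^ κ * X ^ (-ε) * Zp 2 + X ^ κ * (X ^ (-(1 / 4) : ℝ) * Zp (5 / 4))) := by gcongr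
        _ = X ^ κ * (2 * Real.log X * (X ^ (-ε) * Zp 2 + X ^ (-(1 / 4) : ℝ) * Zp (5 / 4))) := by ring
        _ ≤ X ^ κ * 1 := by gcongr
        _ = X ^ κ := mul_one _
    have := mul_le_mul_of_nonneg_left h2 hE
    linarith
  refine ⟨A, fun k hk => ?_⟩
  obtain ⟨f, hf, hneg⟩ := hk
  by_contra hlt
  push Not at hlt
  set Z := seen X (1 / 2 + κ - ε) with hZ
  have hfin : Z.Finite := seen_finite _ _
  have := hfin.fintype
  let E : (Fin k → ℂ) →ₗ[ℂ] (Z → ℂ) :=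
    { toFun := fun a ρ => ∑ j, a j * TT (f j) ((ρ : Zr) : ℂ)
      map_add' := fun a b => by
        funext ρ
        simp only [Pi.add_apply, add_mul, Finset.sum_add_distrib]
      map_smul' := fun c a => by
        funext ρ
        simp only [Pi.smul_apply, smul_eq_mul, RingHom.id_apply, Finset.mul_sum, mul_assoc] }
  have hker : LinearMap.ker E ≠ ⊥ := by
    apply E.ker_ne_bot_of_finrank_lt
    rw [Module.finrank_fintype_fun_eq_card, Module.finrank_fintype_fun_eq_card, Fintype.card_fin,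
      ← Nat.card_eq_fintype_card]
    exact hlt
  obtain ⟨a, ha, ha0⟩ := (Submodule.ne_bot_iff _).mp hker
  have h1 := hneg a ha0
  have hT : Tst X (fun x => ∑ j, a j * f j x) := Tst.sum Finset.univ a fun j _ => hf j
  have h2 := A (fun x => ∑ j, a j * f j x) hT (by
    intro ρ hρ
    rw [TT_sum Finset.univ a fun j _ => (hf j).tf]
    have h3 : E a = 0 := ha
    exact congrFun h3 ⟨ρ, hρ⟩)
  linarith

end Pool.Agent.Helper42.MI
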